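import Mathlib

/-!
# MP_78803a tools: divisibility by `z ^ k`

`Cg k f g`: `f ≡ g` modulo `z ^ k` at `0`. `exists_div`: an analytic `u = O(z^k)` is `z ^ k * h`.
-/

set_option autoImplicit false

open Filter Topology Metric Complex Asymptotics

namespace Pool.Agent.Helper16.T78

/-- `f ≡ g` modulo `z ^ k` at the origin -/
def Cg (k : ℕ) (f g : ℂ → ℂ) : Prop := (fun z => f z - g z) =O[𝓝 0] (fun z : ℂ => z ^ k)

theorem Cg.refl (k : ℕ) (f : ℂ → ℂ) : Cg k f f := by
  unfold Cg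
  simp only [sub_self]
  exact isBigO_zero _ _

theorem Cg.symm {k : ℕ} {f g : ℂ → ℂ} (h : Cg k f g) : Cg k g f := by
  unfold Cg at *
  have h1 := h.neg_left
  refine h1.congr_left (fun z => ?_)
  ring

theorem Cg.trans {k : ℕ} {f g u : ℂ → ℂ} (h : Cg k f g) (h' : Cg k g u) : Cg k f u := by
  unfold Cg at *
  refine (h.add h').congr_left (fun z => ?_)
  ring

theorem Cg.mono {k j : ℕ} {f g : ℂ → ℂ} (h : Cg k f g) (hj : j ≤ k) : Cg j f g := by
  unfold Cg at *
  refine h.trans ?_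
  have h1 : (fun z : ℂ => z ^ k) = fun z : ℂ => z ^ (k - j) * z ^ j := by
    funext z
    rw [← pow_add]
    congr 1
    omega
  rw [h1]
  have h2 : (fun z : ℂ => z ^ (k - j)) =O[𝓝 0] (fun _ : ℂ => (1 : ℂ)) := by
    have : Tendsto (fun z : ℂ => z ^ (k - j)) (𝓝 0) (𝓝 ((0 : ℂ) ^ (k - j))) :=
      Continuous.tendsto (by fun_prop) _
    exact this.isBigO_one ℂ
  have h3 := h2.mul (isBigO_refl (fun z : ℂ => z ^ j) (𝓝 0))
  simpa using h3

theorem Cg.add {k : ℕ} {f g u v : ℂ → ℂ} (h : Cg k f g) (h' : Cg k u v) :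
    Cg k (fun z => f z + u z) (fun z => g z + v z) := by
  unfold Cg at *
  refine (IsBigO.add h h').congr_left (fun z => ?_)
  ring

theorem Cg.sub {k : ℕ} {f g u v : ℂ → ℂ} (h : Cg k f g) (h' : Cg k u v) :
    Cg k (fun z => f z - u z) (fun z => g z - v z) := by
  unfold Cg at *
  refine (IsBigO.sub h h').congr_left (fun z => ?_)
  ring

theorem Cg.mul {k : ℕ} {f g u v : ℂ → ℂ} (h : Cg k f g) (h' : Cg k u v) (hf : ContinuousAt f 0)
    (hv : ContinuousAt v 0) : Cg k (fun z => f z * u z) (fun z => g z * v z) := by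
  unfold Cg at *
  have h1 : (fun z => f z * (u z - v z)) =O[𝓝 0] (fun z : ℂ => z ^ k) := by
    have h2 := (hf.tendsto.isBigO_one ℂ).mul h'
    simpa using h2
  have h3 : (fun z => (f z - g z) * v z) =O[𝓝 0] (fun z : ℂ => z ^ k) := by
    have h2 := h.mul (hv.tendsto.isBigO_one ℂ)
    simpa using h2
  refine (h1.add h3).congr_left (fun z => ?_)
  ring

theorem Cg.pow {k : ℕ} {f g : ℂ → ℂ} (h : Cg k f g) (hf : ContinuousAt f 0) (hg : ContinuousAt g 0)
    (n : ℕ) : Cg k (fun z => f z ^ n) (fun z => g z ^ n) := by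
  induction n with
  | zero =>
    simp only [pow_zero]
    exact Cg.refl k _
  | succ n ih =>
    simp only [pow_succ]
    exact ih.mul h (hf.pow n) hg

/-- composition with an analytic function -/
theorem Cg.comp {k : ℕ} {f g : ℂ → ℂ} {φ : ℂ → ℂ} (h : Cg k f g) (hf : ContinuousAt f 0)
    (hg : ContinuousAt g 0) (h0 : f 0 = g 0) (hφ : AnalyticAt ℂ φ (f 0)) :
    Cg k (fun z => φ (f z)) (fun z => φ (g z)) := by
  unfold Cg at *
  have h1 := hφ.hasStrictFDerivAt.isBigO_sub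
  have h2 : Tendsto (fun z => (f z, g z)) (𝓝 0) (𝓝 (f 0, f 0)) := by
    have h3 : Tendsto g (𝓝 0) (𝓝 (f 0)) := by
      rw [h0]
      exact hg.tendsto
    exact hf.tendsto.prodMk_nhds h3
  have h4 := h1.comp_tendsto h2
  exact IsBigO.trans h4 h

theorem Cg.inv {k : ℕ} {f g : ℂ → ℂ} (h : Cg k f g) (hf : ContinuousAt f 0) (hg : ContinuousAt g 0)
    (h0 : f 0 = g 0) (hne : f 0 ≠ 0) : Cg k (fun z => (f z)⁻¹) (fun z => (g z)⁻¹) :=
  h.comp (φ := fun z => z⁻¹) hf hg h0 (analyticAt_inv hne)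

theorem Cg.div {k : ℕ} {f g u v : ℂ → ℂ} (h : Cg k f g) (h' : Cg k u v) (hf : ContinuousAt f 0)
    (hu : ContinuousAt u 0) (hv : ContinuousAt v 0) (h0 : u 0 = v 0) (hne : u 0 ≠ 0) :
    Cg k (fun z => f z / u z) (fun z => g z / v z) := by
  simp only [div_eq_mul_inv]
  refine h.mul (h'.inv hu hv h0 hne) hf (hv.inv₀ ?_)
  rwa [← h0]

/-- congruent functions agree at `0` -/
theorem Cg.eq_zero {k : ℕ} {f g : ℂ → ℂ} (h : Cg k f g) (hk : k ≠ 0) : f 0 = g 0 := by
  unfold Cg at h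
  obtain ⟨c, hc⟩ := h.bound
  have h1 := hc.self_of_nhds
  simp only [norm_pow, norm_zero, zero_pow hk, mul_zero] at h1
  exact sub_eq_zero.1 (norm_eq_zero.1 (le_antisymm h1 (norm_nonneg _)))

theorem analyticAt_dslope {u : ℂ → ℂ} {a z : ℂ} (ha : AnalyticAt ℂ u a) (hz : AnalyticAt ℂ u z) :
    AnalyticAt ℂ (dslope u a) z := by
  rcases eq_or_ne z a with h | h
  · subst h
    obtain ⟨p, hp⟩ := ha
    exact ⟨_, hp.has_fpower_series_dslope_fslope⟩
  · have h1 : (fun w => (u w - u a) / (w - a)) =ᶠ[𝓝 z] dslope u a := by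
      filter_upwards [isOpen_ne.mem_nhds h] with w hw
      rw [dslope_of_ne u hw, slope_def_field]
    have h2 : AnalyticAt ℂ (fun w => (u w - u a) / (w - a)) z :=
      (hz.sub analyticAt_const).div (analyticAt_id.sub analyticAt_const) (sub_ne_zero.2 h)
    exact h2.congr h1

private theorem exists_div_aux {s : Set ℂ} (h0 : (0 : ℂ) ∈ s) (k : ℕ) : ∀ u : ℂ → ℂ,
    AnalyticOnNhd ℂ u s → (∃ C : ℝ, ∀ᶠ z in 𝓝[≠] (0 : ℂ), ‖u z‖ ≤ C * ‖z‖ ^ k) →
    ∃ h : ℂ → ℂ, AnalyticOnNhd ℂ h s ∧ ∀ z, u z = z ^ k * h z := by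
  induction k with
  | zero =>
    intro u hu _
    exact ⟨u, hu, fun z => by simp⟩
  | succ k ih =>
    intro u hu hO
    obtain ⟨C, hC⟩ := hO
    have hu0 : u 0 = 0 := by
      have h1 : Tendsto (fun z => ‖u z‖) (𝓝[≠] (0 : ℂ)) (𝓝 ‖u 0‖) :=
        ((hu 0 h0).continuousAt.norm.tendsto).mono_left nhdsWithin_le_nhds
      have h2 : Tendsto (fun z : ℂ => C * ‖z‖ ^ (k + 1)) (𝓝[≠] (0 : ℂ)) (𝓝 0) := by
        have h3 : Tendsto (fun z : ℂ => C * ‖z‖ ^ (k + 1)) (𝓝 0) (𝓝 (C * ‖(0 : ℂ)‖ ^ (k + 1))) :=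
          Continuous.tendsto (by fun_prop) _
        simp only [norm_zero, ne_eq, Nat.add_eq_zero_iff, one_ne_zero, and_false, not_false_eq_true,
          zero_pow, mul_zero] at h3
        exact h3.mono_left nhdsWithin_le_nhds
      have h4 := le_of_tendsto_of_tendsto h1 h2 hC
      exact norm_eq_zero.1 (le_antisymm h4 (norm_nonneg _))
    obtain ⟨h, h1, h2⟩ := ih (dslope u 0) (fun z hz => analyticAt_dslope (hu 0 h0) (hu z hz))
      ⟨C, by
        filter_upwards [hC, self_mem_nhdsWithin] with z hz hz0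
        have hz0' : z ≠ 0 := hz0
        rw [dslope_of_ne u hz0', slope_def_field, hu0, sub_zero, sub_zero, norm_div,
          div_le_iff₀ (norm_pos_iff.2 hz0')]
        rw [pow_succ] at hz
        linarith⟩
    refine ⟨h, h1, fun z => ?_⟩
    have h3 := sub_smul_dslope u 0 z
    rw [hu0, sub_zero, sub_zero, smul_eq_mul, h2 z] at h3
    rw [← h3]
    ring

/-- an analytic function which is `O(z^k)` at `0` is divisible by `z^k` -/
theorem exists_div {u : ℂ → ℂ} {s : Set ℂ} (hu : AnalyticOnNhd ℂ u s) (h0 : (0 : ℂ) ∈ s) {k : ℕ}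
    (hO : u =O[𝓝 0] (fun z : ℂ => z ^ k)) :
    ∃ h : ℂ → ℂ, AnalyticOnNhd ℂ h s ∧ ∀ z, u z = z ^ k * h z := by
  obtain ⟨C, hC⟩ := hO.bound
  refine exists_div_aux h0 k u hu ⟨C, ?_⟩
  filter_upwards [hC.filter_mono nhdsWithin_le_nhds] with z hz
  simpa using hz

theorem Cg.exists_div {f g : ℂ → ℂ} {s : Set ℂ} (hf : AnalyticOnNhd ℂ f s)
    (hg : AnalyticOnNhd ℂ g s) (h0 : (0 : ℂ) ∈ s) {k : ℕ} (h : Cg k f g) :
    ∃ h : ℂ → ℂ, AnalyticOnNhd ℂ h s ∧ ∀ z, f z - g z = z ^ k * h z :=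
  T78.exists_div (u := fun z => f z - g z) (hf.sub hg) h0 h

/-- divisible functions are congruent -/
theorem cg_of_mul {f g h : ℂ → ℂ} {k : ℕ} (hh : ContinuousAt h 0)
    (he : ∀ᶠ z in 𝓝 (0 : ℂ), f z - g z = z ^ k * h z) : Cg k f g := by
  unfold Cg
  have h1 := (isBigO_refl (fun z : ℂ => z ^ k) (𝓝 0)).mul (hh.tendsto.isBigO_one ℂ)
  have h2 : (fun z : ℂ => z ^ k * h z) =O[𝓝 0] (fun z : ℂ => z ^ k) := by simpa using h1
  exact h2.congr' (he.mono fun z hz => hz.symm) (EventuallyEq.refl _ _)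

/-- the derivative loses one power -/
theorem Cg.deriv {k : ℕ} {f g : ℂ → ℂ} (h : Cg (k + 1) f g) (hf : AnalyticAt ℂ f 0)
    (hg : AnalyticAt ℂ g 0) : Cg k (_root_.deriv f) (_root_.deriv g) := by
  obtain ⟨u, hu, he⟩ := h.exists_div (s := {0}) (by
    intro z hz
    rw [Set.mem_singleton_iff.1 hz]
    exact hf) (by
    intro z hz
    rw [Set.mem_singleton_iff.1 hz]
    exact hg) rfl
  have hu0 : AnalyticAt ℂ u 0 := hu 0 rfl
  refine cg_of_mul (h := fun z => (k + 1 : ℂ) * u z + z * _root_.deriv u z) ?_ ?_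
  · exact (continuousAt_const.mul hu0.continuousAt).add
      (continuousAt_id.mul hu0.deriv.continuousAt)
  · filter_upwards [hf.eventually_analyticAt, hg.eventually_analyticAt,
      hu0.eventually_analyticAt] with z h1 h2 h3
    have h4 : _root_.deriv (fun z => f z - g z) z = _root_.deriv (fun z => z ^ (k + 1) * u z) z := by
      congr 1
      funext w
      exact he w
    have h5 : HasDerivAt (fun z : ℂ => z ^ (k + 1) * u z)
        (((k + 1 : ℕ) : ℂ) * z ^ k * u z + z ^ (k + 1) * _root_.deriv u z) z := by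
      have h6 : HasDerivAt (fun z : ℂ => z ^ (k + 1) * u z) _ z :=
        (hasDerivAt_pow (k + 1) z).mul h3.differentiableAt.hasDerivAt
      refine h6.congr_deriv ?_
      simp
    rw [h5.deriv] at h4
    have h7 := (h1.differentiableAt.hasDerivAt.sub h2.differentiableAt.hasDerivAt).deriv
    have h8 : _root_.deriv (fun z => f z - g z) z = _root_.deriv f z - _root_.deriv g z := h7
    rw [h8] at h4
    rw [h4]
    push_cast
    ring

theorem Cg.iteratedDeriv {k : ℕ} {f g : ℂ → ℂ} (l : ℕ) (h : Cg (k + l) f g)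
    (hf : AnalyticAt ℂ f 0) (hg : AnalyticAt ℂ g 0) :
    Cg k (_root_.iteratedDeriv l f) (_root_.iteratedDeriv l g) := by
  induction l generalizing f g with
  | zero =>
    simpa [iteratedDeriv_zero] using h
  | succ l ih =>
    rw [iteratedDeriv_succ', iteratedDeriv_succ']
    exact ih (Cg.deriv (by rw [add_assoc]; exact h) hf hg) hf.deriv hg.deriv

end Pool.Agent.Helper16.T78
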