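import Mathlib

/-!
# MP_78803a tools, T1: the three circles lemma
-/

set_option autoImplicit false

open Filter Topology Metric Complex

namespace Pool.Agent.Helper16.T78

/-- three circles with an integer exponent, on the annulus `1 ≤ |z| ≤ R` -/
theorem three_circles_nat {u : ℂ → ℂ} {R A : ℝ} {k : ℕ}
    (hc : ContinuousOn u (closedBall 0 R \ ball 0 1))
    (hd : DifferentiableOn ℂ u (ball 0 R \ closedBall 0 1))
    (h1 : ∀ z : ℂ, ‖z‖ = 1 → ‖u z‖ ≤ A) (h2 : ∀ z : ℂ, ‖z‖ = R → ‖u z‖ ≤ A * R ^ k)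
    {z : ℂ} (hz1 : 1 ≤ ‖z‖) (hzR : ‖z‖ ≤ R) : ‖u z‖ ≤ A * ‖z‖ ^ k := by
  have hU : IsOpen (ball (0 : ℂ) R \ closedBall 0 1) := isOpen_ball.sdiff isClosed_closedBall
  have hcl : closure (ball (0 : ℂ) R \ closedBall 0 1) ⊆ closedBall 0 R \ ball 0 1 := by
    refine closure_minimal ?_ (isClosed_closedBall.sdiff isOpen_ball)
    intro w hw
    refine ⟨ball_subset_closedBall hw.1, fun h => hw.2 (ball_subset_closedBall h)⟩
  have hne : ∀ w ∈ closedBall (0 : ℂ) R \ ball 0 1, w ≠ 0 := by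
    intro w hw h0
    refine hw.2 ?_
    rw [h0]
    simp
  have hpk : ∀ w : ℂ, w ≠ 0 → ‖u w / w ^ k‖ = ‖u w‖ / ‖w‖ ^ k := by
    intro w _
    rw [norm_div, norm_pow]
  have key : ∀ w ∈ closure (ball (0 : ℂ) R \ closedBall 0 1), ‖u w / w ^ k‖ ≤ A := by
    intro w hw
    refine norm_le_of_forall_mem_frontier_norm_le (f := fun w => u w / w ^ k)
      (U := ball (0 : ℂ) R \ closedBall 0 1) (isBounded_ball.subset Set.diff_subset) ?_ ?_ hw
    · refine ⟨?_, ?_⟩
      · refine hd.div (by fun_prop) (fun v hv => pow_ne_zero k (hne v ?_))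
        exact hcl (subset_closure hv)
      · refine (hc.mono hcl).div (by fun_prop) (fun v hv => pow_ne_zero k (hne v (hcl hv)))
    · intro v hv
      have hv1 := hcl hv.1
      have hv2 : v ∉ ball (0 : ℂ) R \ closedBall 0 1 := by
        have := hv.2
        rwa [hU.interior_eq] at this
      have hvR : ‖v‖ ≤ R := by simpa using hv1.1
      have hv1' : 1 ≤ ‖v‖ := by simpa using hv1.2
      change ‖u v / v ^ k‖ ≤ A
      rw [hpk v (hne v hv1), div_le_iff₀ (by positivity)]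
      rcases hvR.lt_or_eq with h | h
      · rcases hv1'.lt_or_eq with h' | h'
        · exact absurd ⟨by simpa using h, by simpa using h'⟩ hv2
        · rw [← h', one_pow, mul_one]
          exact h1 v h'.symm
      · rw [h]
        exact h2 v h
  rcases hzR.lt_or_eq with h | h
  · rcases hz1.lt_or_eq with h' | h'
    · have hz0 : z ≠ 0 := by
        intro h0
        rw [h0, norm_zero] at hz1
        linarith
      have hk := key z (subset_closure ⟨by simpa using h, by simpa using h'⟩)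
      rw [hpk z hz0, div_le_iff₀ (by positivity)] at hk
      exact hk
    · rw [← h', one_pow, mul_one]
      exact h1 z h'.symm
  · rw [h]
    exact h2 z h

/-- three circles with exponential radii -/
theorem three_circles_annulus {u : ℂ → ℂ} {H A M x : ℝ} (hH : 0 < H) (hA : 0 < A) (hAM : A ≤ M)
    (hc : ContinuousOn u (closedBall 0 (Real.exp H) \ ball 0 1))
    (hd : DifferentiableOn ℂ u (ball 0 (Real.exp H) \ closedBall 0 1))
    (h1 : ∀ z : ℂ, ‖z‖ = 1 → ‖u z‖ ≤ A) (h2 : ∀ z : ℂ, ‖z‖ = Real.exp H → ‖u z‖ ≤ M)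
    {z : ℂ} (hz1 : 1 ≤ ‖z‖) (hzx : ‖z‖ ≤ Real.exp x) (hx : x ≤ H) :
    ‖u z‖ ≤ A * Real.exp ((Real.log (M / A) / H + 1) * x) := by
  have hx0 : 0 ≤ x := by
    have := hz1.trans hzx
    rwa [Real.one_le_exp_iff] at this
  have hM0 : 0 < M := hA.trans_le hAM
  have hl : 0 ≤ Real.log (M / A) := Real.log_nonneg (by rw [le_div_iff₀ hA]; linarith)
  set k := ⌈Real.log (M / A) / H⌉₊ with hk
  have hk1 : Real.log (M / A) / H ≤ k := Nat.le_ceil _
  have hk2 : (k : ℝ) ≤ Real.log (M / A) / H + 1 := (Nat.ceil_lt_add_one (by positivity)).le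
  have hRk : M ≤ A * Real.exp H ^ k := by
    rw [← Real.exp_nat_mul]
    have h3 : Real.log (M / A) ≤ k * H := by
      rwa [div_le_iff₀ hH] at hk1
    have h4 : M / A ≤ Real.exp (k * H) := by
      rw [← Real.log_le_iff_le_exp (by positivity)]
      exact h3
    rw [div_le_iff₀ hA] at h4
    linarith
  have h5 := three_circles_nat (k := k) hc hd h1 (fun w hw => (h2 w hw).trans hRk) hz1
    (hzx.trans (Real.exp_le_exp.2 hx))
  refine h5.trans (mul_le_mul_of_nonneg_left ?_ hA.le)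
  calc ‖z‖ ^ k ≤ Real.exp x ^ k := pow_le_pow_left₀ (norm_nonneg _) hzx k
    _ = Real.exp (k * x) := by rw [← Real.exp_nat_mul]
    _ ≤ _ := Real.exp_le_exp.2 (mul_le_mul_of_nonneg_right hk2 hx0)

/-- three circles for a function analytic on the closed disc of radius `exp H` -/
theorem three_circles {u : ℂ → ℂ} {H A M x : ℝ} (hH : 0 < H) (hA : 0 < A) (hAM : A ≤ M)
    (hu : AnalyticOnNhd ℂ u (closedBall 0 (Real.exp H)))
    (h1 : ∀ z : ℂ, ‖z‖ = 1 → ‖u z‖ ≤ A) (h2 : ∀ z : ℂ, ‖z‖ = Real.exp H → ‖u z‖ ≤ M)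
    {z : ℂ} (hz1 : 1 ≤ ‖z‖) (hzx : ‖z‖ ≤ Real.exp x) (hx : x ≤ H) :
    ‖u z‖ ≤ A * Real.exp ((Real.log (M / A) / H + 1) * x) :=
  three_circles_annulus hH hA hAM (hu.continuousOn.mono Set.diff_subset)
    (hu.differentiableOn.mono (Set.diff_subset.trans ball_subset_closedBall)) h1 h2 hz1 hzx hx

/-- maximum principle on the closed disc of radius `R` -/
theorem norm_le_of_circle {f : ℂ → ℂ} {R M : ℝ} (hR : 0 < R)
    (hf : AnalyticOnNhd ℂ f (closedBall 0 R))
    (hM : ∀ z : ℂ, ‖z‖ = R → ‖f z‖ ≤ M) {z : ℂ} (hz : ‖z‖ ≤ R) : ‖f z‖ ≤ M := by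
  have hcl : closure (ball (0 : ℂ) R) = closedBall 0 R := closure_ball 0 hR.ne'
  have hd : DiffContOnCl ℂ f (ball 0 R) := by
    refine ⟨fun z hz => (hf z (ball_subset_closedBall hz)).differentiableAt.differentiableWithinAt,
      ?_⟩
    rw [hcl]
    exact hf.continuousOn
  refine norm_le_of_forall_mem_frontier_norm_le isBounded_ball hd (fun w hw => hM w ?_) ?_
  · rw [frontier_ball 0 hR.ne'] at hw
    exact mem_sphere_zero_iff_norm.1 hw
  · rw [hcl]
    simpa using hz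

/-- Schwarz lemma with a zero of order `m` and a weight `exp (Re φ)` on the disc of radius `R` -/
theorem schwarz_weighted {h φ : ℂ → ℂ} {R M : ℝ} {m : ℕ} (hR : 0 < R)
    (hh : AnalyticOnNhd ℂ h (closedBall 0 R)) (hφ : AnalyticOnNhd ℂ φ (closedBall 0 R))
    (hφ0 : ∀ z : ℂ, ‖z‖ ≤ R → φ z ≠ 0)
    (hM : ∀ z : ℂ, ‖z‖ = R → ‖z ^ m * h z‖ ≤ M * ‖φ z‖) {z : ℂ} (hz : ‖z‖ ≤ R) :
    ‖z ^ m * h z‖ ≤ M * ‖φ z‖ * (‖z‖ / R) ^ m := by
  have h2 := norm_le_of_circle (f := fun z => h z / φ z) hR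
    (hh.div hφ (fun w hw => hφ0 w (by simpa using hw))) (M := M / R ^ m)
    (fun w hw => by
      have h3 := hM w hw
      have h4 : 0 < ‖φ w‖ := norm_pos_iff.2 (hφ0 w hw.le)
      rw [norm_mul, norm_pow, hw] at h3
      rw [norm_div, div_le_div_iff₀ h4 (by positivity)]
      linarith) hz
  have h4 : 0 < ‖φ z‖ := norm_pos_iff.2 (hφ0 z hz)
  rw [norm_div, div_le_div_iff₀ h4 (by positivity)] at h2
  have h5 : ‖h z‖ ≤ M * ‖φ z‖ / R ^ m := by
    rw [le_div_iff₀ (by positivity)]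
    exact h2
  rw [norm_mul, norm_pow, div_pow]
  calc ‖z‖ ^ m * ‖h z‖ ≤ ‖z‖ ^ m * (M * ‖φ z‖ / R ^ m) :=
        mul_le_mul_of_nonneg_left h5 (by positivity)
    _ = _ := by ring

end Pool.Agent.Helper16.T78
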