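import Mathlib

/-!
# MP_78803a tools, T6: weighted primitives on the disc of radius `R`

`|f'| ≤ b |f|` on `|z| ≤ R`; `|g| ≤ C |f| |z|^n` there. The `l`-fold primitive of `g` is bounded by
`C / x^l |f| |z|^n`, `x R ≤ n + 1 - b R`.
-/

set_option autoImplicit false

open Filter Topology Metric Complex

namespace Pool.Agent.Helper16.T78

private theorem exists_prim {g : ℂ → ℂ} {R : ℝ} (hR : 0 ≤ R)
    (hg : AnalyticOnNhd ℂ g (closedBall 0 R)) :
    ∃ G : ℂ → ℂ, G 0 = 0 ∧ AnalyticOnNhd ℂ G (closedBall 0 R) ∧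
      ∀ z ∈ closedBall (0 : ℂ) R, HasDerivAt G (g z) z := by
  obtain ⟨r, hr, hsub⟩ := (isCompact_closedBall (0 : ℂ) R).exists_thickening_subset_open
    (isOpen_analyticAt ℂ g) hg
  rw [thickening_closedBall hr hR] at hsub
  have hd : DifferentiableOn ℂ g (ball 0 (r + R)) := fun z hz =>
    (hsub hz : AnalyticAt ℂ g z).differentiableAt.differentiableWithinAt
  obtain ⟨G, hG0, hG⟩ := hd.isExactOn_ball.with_val_at 0 0
  have hin : closedBall (0 : ℂ) R ⊆ ball 0 (r + R) := closedBall_subset_ball (by linarith)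
  refine ⟨G, hG0, ?_, fun z hz => hG z (hin hz)⟩
  have hGd : DifferentiableOn ℂ G (ball 0 (r + R)) := fun z hz =>
    (hG z hz).differentiableAt.differentiableWithinAt
  exact fun z hz => hGd.analyticAt (isOpen_ball.mem_nhds (hin hz))

/-- growth of `f` along rays: `|f (t z)| ≤ |f z| t ^ (-(b R))` -/
theorem ray_growth {f : ℂ → ℂ} {R b : ℝ} (hb0 : 0 ≤ b)
    (hf : ∀ z : ℂ, ‖z‖ ≤ R → DifferentiableAt ℂ f z)
    (hf' : ∀ z : ℂ, ‖z‖ ≤ R → ‖deriv f z‖ ≤ b * ‖f z‖) {z : ℂ} (hz : ‖z‖ ≤ R) {t : ℝ}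
    (h0 : 0 < t) (h1 : t ≤ 1) : ‖f ((t : ℂ) * z)‖ ≤ ‖f z‖ * t ^ (-(b * R)) := by
  have hin : ∀ s : ℝ, 0 ≤ s → s ≤ 1 → ‖((1 - s : ℝ) : ℂ) * z‖ ≤ R := by
    intro s hs0 hs1
    rw [norm_mul, Complex.norm_real, Real.norm_of_nonneg (by linarith)]
    calc (1 - s) * ‖z‖ ≤ 1 * ‖z‖ := mul_le_mul_of_nonneg_right (by linarith) (norm_nonneg _)
      _ ≤ R := by linarith
  have hd : ∀ s : ℝ, 0 ≤ s → s ≤ 1 → HasDerivAt (fun s : ℝ => f (((1 - s : ℝ) : ℂ) * z))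
      (deriv f (((1 - s : ℝ) : ℂ) * z) * (-z)) s := by
    intro s hs0 hs1
    have h2 := (hf _ (hin s hs0 hs1)).hasDerivAt
    have h3 : HasDerivAt (fun s : ℝ => ((1 - s : ℝ) : ℂ) * z) (-z) s := by
      have h4 : HasDerivAt (fun s : ℝ => 1 - s) (-1) s := by
        simpa using (hasDerivAt_id s).const_sub 1
      have h5 : HasDerivAt (fun s : ℝ => ((1 - s : ℝ) : ℂ)) ((-1 : ℝ) : ℂ) s := h4.ofReal_comp
      have h6 := h5.mul_const z
      simpa using h6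
    exact HasDerivAt.comp_of_eq (h₂ := f) (h := fun s : ℝ => ((1 - s : ℝ) : ℂ) * z) s h2 h3 rfl
  have h2 := norm_le_gronwallBound_of_norm_deriv_right_le (a := 0) (b := 1 - t)
    (f := fun s : ℝ => f (((1 - s : ℝ) : ℂ) * z))
    (f' := fun s : ℝ => deriv f (((1 - s : ℝ) : ℂ) * z) * (-z))
    (δ := ‖f z‖) (K := b * R) (ε := 0)
    (fun s hs => (hd s hs.1 (by linarith [hs.2])).continuousAt.continuousWithinAt)
    (fun s hs => (hd s hs.1 (by linarith [hs.2])).hasDerivWithinAt) (by simp) (fun s hs => by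
      have h3 := hin s hs.1 (by linarith [hs.2])
      rw [norm_mul, norm_neg, add_zero]
      calc ‖deriv f (((1 - s : ℝ) : ℂ) * z)‖ * ‖z‖ ≤
            (b * ‖f (((1 - s : ℝ) : ℂ) * z)‖) * R :=
            mul_le_mul (hf' _ h3) hz (norm_nonneg _) (by positivity)
        _ = _ := by ring) (1 - t) ⟨by linarith, le_rfl⟩
  rw [gronwallBound_ε0, sub_zero] at h2
  have h3 : ((1 - (1 - t) : ℝ) : ℂ) = (t : ℂ) := by
    congr 1
    ring
  rw [h3] at h2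
  refine h2.trans (mul_le_mul_of_nonneg_left ?_ (norm_nonneg _))
  rw [Real.rpow_def_of_pos h0]
  refine Real.exp_le_exp.2 ?_
  have hR : 0 ≤ R := (norm_nonneg z).trans hz
  have h5 : 1 - t ≤ -Real.log t := by
    have := Real.log_le_sub_one_of_pos h0
    linarith
  have h6 : 0 ≤ b * R := mul_nonneg hb0 hR
  nlinarith

/-- weighted primitive -/
theorem wprim {f g : ℂ → ℂ} {R b C : ℝ} {n : ℕ} (hR : 0 < R) (hb0 : 0 ≤ b)
    (hf : ∀ z : ℂ, ‖z‖ ≤ R → DifferentiableAt ℂ f z)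
    (hf' : ∀ z : ℂ, ‖z‖ ≤ R → ‖deriv f z‖ ≤ b * ‖f z‖) (hb : b * R < n + 1) (hC : 0 ≤ C)
    (hg : AnalyticOnNhd ℂ g (closedBall 0 R))
    (hgb : ∀ z : ℂ, ‖z‖ ≤ R → ‖g z‖ ≤ C * ‖f z‖ * ‖z‖ ^ n) :
    ∃ G : ℂ → ℂ, AnalyticOnNhd ℂ G (closedBall 0 R) ∧
      (∀ z ∈ closedBall (0 : ℂ) R, HasDerivAt G (g z) z) ∧
      ∀ z : ℂ, ‖z‖ ≤ R → ‖G z‖ ≤ C / (n + 1 - b * R) * ‖f z‖ * ‖z‖ ^ (n + 1) := by
  obtain ⟨G, hG0, hGa, hG⟩ := exists_prim hR.le hg
  refine ⟨G, hGa, hG, fun z hz => ?_⟩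
  have hin : ∀ t : ℝ, 0 ≤ t → t ≤ 1 → ‖(t : ℂ) * z‖ ≤ R := by
    intro t h0 h1
    rw [norm_mul, Complex.norm_real, Real.norm_eq_abs, abs_of_nonneg h0]
    calc t * ‖z‖ ≤ 1 * R := mul_le_mul h1 hz (norm_nonneg _) zero_le_one
      _ = R := one_mul R
  have hcb : ∀ t : ℝ, 0 ≤ t → t ≤ 1 → (t : ℂ) * z ∈ closedBall (0 : ℂ) R := by
    intro t h0 h1
    rw [mem_closedBall, dist_zero_right]
    exact hin t h0 h1
  have hder : ∀ t ∈ Set.uIcc (0 : ℝ) 1,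
      HasDerivAt (fun t : ℝ => G ((t : ℂ) * z)) (g ((t : ℂ) * z) * z) t := by
    intro t ht
    rw [Set.uIcc_of_le zero_le_one, Set.mem_Icc] at ht
    have h1 := hG _ (hcb t ht.1 ht.2)
    have h2 : HasDerivAt (fun t : ℝ => (t : ℂ) * z) z t := by
      have h3 : HasDerivAt (fun t : ℝ => (t : ℂ)) 1 t := Complex.ofRealCLM.hasDerivAt
      simpa using h3.mul_const z
    exact HasDerivAt.comp_of_eq (h₂ := G) (h := fun t : ℝ => (t : ℂ) * z) t h1 h2 rfl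
  have hcont : ContinuousOn (fun t : ℝ => g ((t : ℂ) * z) * z) (Set.uIcc 0 1) := by
    rw [Set.uIcc_of_le zero_le_one]
    refine ContinuousOn.mul ?_ continuousOn_const
    refine ContinuousOn.comp (t := closedBall (0 : ℂ) R) hg.continuousOn ?_ ?_
    · exact (Complex.continuous_ofReal.mul continuous_const).continuousOn
    · intro t ht
      exact hcb t ht.1 ht.2
  have hint := intervalIntegral.integral_eq_sub_of_hasDerivAt hder hcont.intervalIntegrable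
  have hG1 : G z = ∫ t in (0 : ℝ)..1, g ((t : ℂ) * z) * z := by
    rw [hint]
    simp [hG0]
  have hr : -1 < (n : ℝ) - b * R := by linarith
  rw [hG1]
  have hle := intervalIntegral.norm_integral_le_of_norm_le (a := (0 : ℝ)) (b := 1)
    (μ := MeasureTheory.volume)
    (f := fun t : ℝ => g ((t : ℂ) * z) * z)
    (g := fun t : ℝ => C * ‖f z‖ * ‖z‖ ^ (n + 1) * t ^ ((n : ℝ) - b * R)) zero_le_one
    (Filter.Eventually.of_forall fun t ht => by
      have h0 := ht.1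
      have h1 := ht.2
      rw [norm_mul]
      have h2 := hgb _ (hin t h0.le h1)
      have h3 := ray_growth hb0 hf hf' hz h0 h1
      rw [norm_mul, Complex.norm_real, Real.norm_eq_abs, abs_of_pos h0, mul_pow] at h2
      calc ‖g ((t : ℂ) * z)‖ * ‖z‖ ≤ C * (‖f z‖ * t ^ (-(b * R))) * (t ^ n * ‖z‖ ^ n) * ‖z‖ := by
            refine mul_le_mul_of_nonneg_right (h2.trans ?_) (norm_nonneg _)
            refine mul_le_mul_of_nonneg_right (mul_le_mul_of_nonneg_left h3 hC) (by positivity)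
        _ = C * ‖f z‖ * ‖z‖ ^ (n + 1) * (t ^ n * t ^ (-(b * R))) := by ring
        _ = _ := by
            rw [← Real.rpow_natCast t n, ← Real.rpow_add h0]
            rfl)
    ((intervalIntegral.intervalIntegrable_rpow' hr).const_mul _)
  refine hle.trans (le_of_eq ?_)
  rw [intervalIntegral.integral_const_mul, integral_rpow (Or.inl hr), Real.one_rpow,
    Real.zero_rpow (by linarith)]
  have hne : (n : ℝ) + 1 - b * R ≠ 0 := by linarith
  have hne' : (n : ℝ) - b * R + 1 = (n : ℝ) + 1 - b * R := by ring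
  rw [hne']
  field_simp
  ring

/-- T6: iterated weighted primitive on the disc of radius `R` -/
theorem wprim_iter (l : ℕ) {f g : ℂ → ℂ} {R b C x : ℝ} {n : ℕ} (hR : 0 < R) (hb0 : 0 ≤ b)
    (hf : ∀ z : ℂ, ‖z‖ ≤ R → DifferentiableAt ℂ f z)
    (hf' : ∀ z : ℂ, ‖z‖ ≤ R → ‖deriv f z‖ ≤ b * ‖f z‖) (hx : 0 < x)
    (hb : x * R ≤ n + 1 - b * R) (hC : 0 ≤ C)
    (hg : AnalyticOnNhd ℂ g (closedBall 0 R))
    (hgb : ∀ z : ℂ, ‖z‖ ≤ R → ‖g z‖ ≤ C * ‖f z‖ * ‖z‖ ^ n) :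
    ∃ δ : ℂ → ℂ, AnalyticOnNhd ℂ δ (closedBall 0 R) ∧
      (∀ z ∈ ball (0 : ℂ) R, iteratedDeriv l δ z = g z) ∧
      ∀ z : ℂ, ‖z‖ ≤ R → ‖δ z‖ ≤ C / x ^ l * ‖f z‖ * ‖z‖ ^ n := by
  induction l with
  | zero =>
    refine ⟨g, hg, fun z _ => by rw [iteratedDeriv_zero], fun z hz => ?_⟩
    rw [pow_zero, div_one]
    exact hgb z hz
  | succ l ih =>
    obtain ⟨δ₀, h1, h2, h3⟩ := ih
    have hxR : 0 < x * R := by positivity
    obtain ⟨δ, h4, h5, h6⟩ := wprim (C := C / x ^ l) (n := n) hR hb0 hf hf' (by linarith)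
      (by positivity) h1 h3
    refine ⟨δ, h4, fun z hz => ?_, fun z hz => ?_⟩
    · rw [iteratedDeriv_succ', ← h2 z hz]
      refine Filter.EventuallyEq.iteratedDeriv_eq l ?_
      filter_upwards [isOpen_ball.mem_nhds hz] with w hw
      exact (h5 w (ball_subset_closedBall hw)).deriv
    · refine (h6 z hz).trans ?_
      have hpos : 0 < (n : ℝ) + 1 - b * R := by linarith
      have h7 : C / x ^ l / (n + 1 - b * R) ≤ C / x ^ l / (x * R) :=
        div_le_div_of_nonneg_left (by positivity) hxR hb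
      calc C / x ^ l / (n + 1 - b * R) * ‖f z‖ * ‖z‖ ^ (n + 1) ≤
            C / x ^ l / (x * R) * ‖f z‖ * (‖z‖ ^ n * R) := by
            rw [pow_succ]
            refine mul_le_mul (mul_le_mul_of_nonneg_right h7 (norm_nonneg _))
              (mul_le_mul_of_nonneg_left hz (by positivity)) (by positivity) (by positivity)
        _ = _ := by
            field_simp
            ring

/-- T6 in the form used for the steps: `|g| ≤ C |f| (|z|/R)^n`, `2 b R ≤ n + 1`, `R ≤ 2` -/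
theorem wprim_iter' (l : ℕ) {f g : ℂ → ℂ} {R b C : ℝ} {n : ℕ} (hR : 0 < R) (hR2 : R ≤ 2)
    (hb0 : 0 ≤ b) (hf : ∀ z : ℂ, ‖z‖ ≤ R → DifferentiableAt ℂ f z)
    (hf' : ∀ z : ℂ, ‖z‖ ≤ R → ‖deriv f z‖ ≤ b * ‖f z‖)
    (hb : 2 * (b * R) ≤ n + 1) (hC : 0 ≤ C)
    (hg : AnalyticOnNhd ℂ g (closedBall 0 R))
    (hgb : ∀ z : ℂ, ‖z‖ ≤ R → ‖g z‖ ≤ C * ‖f z‖ * (‖z‖ / R) ^ n) :
    ∃ δ : ℂ → ℂ, AnalyticOnNhd ℂ δ (closedBall 0 R) ∧
      (∀ z ∈ ball (0 : ℂ) R, iteratedDeriv l δ z = g z) ∧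
      ∀ z : ℂ, ‖z‖ ≤ R → ‖δ z‖ ≤ C * (4 / (n + 1)) ^ l * ‖f z‖ * (‖z‖ / R) ^ n := by
  have hn : (0 : ℝ) < n + 1 := by positivity
  obtain ⟨δ, h1, h2, h3⟩ := wprim_iter l (C := C / R ^ n) (x := (n + 1) / 4) (n := n) hR hb0 hf hf'
    (by positivity) (by nlinarith) (by positivity) hg (fun z hz => by
      refine (hgb z hz).trans (le_of_eq ?_)
      rw [div_pow]
      ring)
  refine ⟨δ, h1, h2, fun z hz => (h3 z hz).trans (le_of_eq ?_)⟩
  rw [div_pow, div_pow, div_pow]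
  field_simp

/-- the identity of all derivatives of a primitive on the closed disc -/
theorem iteratedDeriv_succ_prim {G g : ℂ → ℂ} {R : ℝ} (hR : 0 < R)
    (hG : AnalyticOnNhd ℂ G (closedBall 0 R)) (hg : AnalyticOnNhd ℂ g (closedBall 0 R))
    (h : ∀ z ∈ closedBall (0 : ℂ) R, HasDerivAt G (g z) z) (i : ℕ) {z : ℂ} (hz : ‖z‖ ≤ R) :
    iteratedDeriv (i + 1) G z = iteratedDeriv i g z := by
  have hcl : closure (ball (0 : ℂ) R) = closedBall 0 R := closure_ball 0 hR.ne'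
  have h1 : Set.EqOn (iteratedDeriv (i + 1) G) (iteratedDeriv i g) (ball 0 R) := by
    intro w hw
    rw [iteratedDeriv_succ']
    refine Filter.EventuallyEq.iteratedDeriv_eq i ?_
    filter_upwards [isOpen_ball.mem_nhds hw] with v hv
    exact (h v (ball_subset_closedBall hv)).deriv
  have hc1 : ContinuousOn (iteratedDeriv (i + 1) G) (closedBall 0 R) := by
    rw [iteratedDeriv_eq_iterate]
    exact (hG.iterated_deriv (i + 1)).continuousOn
  have hc2 : ContinuousOn (iteratedDeriv i g) (closedBall 0 R) := by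
    rw [iteratedDeriv_eq_iterate]
    exact (hg.iterated_deriv i).continuousOn
  have h2 : Set.EqOn (iteratedDeriv (i + 1) G) (iteratedDeriv i g) (closedBall 0 R) :=
    h1.of_subset_closure hc1 hc2 ball_subset_closedBall (by rw [hcl])
  exact h2 (by simpa using hz)

/-- T6, all derivatives: one `l`-fold primitive `δ` with
`|δ^(i)| ≤ C / x^(l-i) |f| |z|^n` for all `i ≤ l` on the closed disc -/
theorem wprim_iter_all (l : ℕ) {f g : ℂ → ℂ} {R b C x : ℝ} {n : ℕ} (hR : 0 < R) (hb0 : 0 ≤ b)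
    (hf : ∀ z : ℂ, ‖z‖ ≤ R → DifferentiableAt ℂ f z)
    (hf' : ∀ z : ℂ, ‖z‖ ≤ R → ‖deriv f z‖ ≤ b * ‖f z‖) (hx : 0 < x)
    (hb : x * R ≤ n + 1 - b * R) (hC : 0 ≤ C)
    (hg : AnalyticOnNhd ℂ g (closedBall 0 R))
    (hgb : ∀ z : ℂ, ‖z‖ ≤ R → ‖g z‖ ≤ C * ‖f z‖ * ‖z‖ ^ n) :
    ∃ δ : ℂ → ℂ, AnalyticOnNhd ℂ δ (closedBall 0 R) ∧
      (∀ z : ℂ, ‖z‖ ≤ R → iteratedDeriv l δ z = g z) ∧
      ∀ i ≤ l, ∀ z : ℂ, ‖z‖ ≤ R → ‖iteratedDeriv i δ z‖ ≤ C / x ^ (l - i) * ‖f z‖ * ‖z‖ ^ n := by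
  induction l with
  | zero =>
    refine ⟨g, hg, fun z _ => by rw [iteratedDeriv_zero], fun i hi z hz => ?_⟩
    have hi0 : i = 0 := by omega
    subst hi0
    rw [iteratedDeriv_zero, Nat.sub_zero, pow_zero, div_one]
    exact hgb z hz
  | succ l ih =>
    obtain ⟨δ₀, h1, h2, h3⟩ := ih
    have hxR : 0 < x * R := by positivity
    have h30 : ∀ z : ℂ, ‖z‖ ≤ R → ‖δ₀ z‖ ≤ C / x ^ l * ‖f z‖ * ‖z‖ ^ n := by
      intro z hz
      have := h3 0 (Nat.zero_le _) z hz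
      rwa [iteratedDeriv_zero, Nat.sub_zero] at this
    obtain ⟨δ, h4, h5, h6⟩ := wprim (C := C / x ^ l) (n := n) hR hb0 hf hf' (by linarith)
      (by positivity) h1 h30
    refine ⟨δ, h4, fun z hz => ?_, fun i hi z hz => ?_⟩
    · rw [iteratedDeriv_succ_prim hR h4 h1 h5 l hz, h2 z hz]
    · rcases Nat.eq_zero_or_pos i with hi0 | hi0
      · subst hi0
        rw [iteratedDeriv_zero, Nat.sub_zero]
        refine (h6 z hz).trans ?_
        have hpos : 0 < (n : ℝ) + 1 - b * R := by linarith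
        have h7 : C / x ^ l / (n + 1 - b * R) ≤ C / x ^ l / (x * R) :=
          div_le_div_of_nonneg_left (by positivity) hxR hb
        calc C / x ^ l / (n + 1 - b * R) * ‖f z‖ * ‖z‖ ^ (n + 1) ≤
              C / x ^ l / (x * R) * ‖f z‖ * (‖z‖ ^ n * R) := by
              rw [pow_succ]
              refine mul_le_mul (mul_le_mul_of_nonneg_right h7 (norm_nonneg _))
                (mul_le_mul_of_nonneg_left hz (by positivity)) (by positivity) (by positivity)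
          _ = _ := by
              field_simp
              ring
      · obtain ⟨j, rfl⟩ : ∃ j, i = j + 1 := ⟨i - 1, by omega⟩
        rw [iteratedDeriv_succ_prim hR h4 h1 h5 j hz]
        have h8 := h3 j (by omega) z hz
        have h9 : l + 1 - (j + 1) = l - j := by omega
        rw [h9]
        exact h8

/-- T6 in the form used for the steps: `|g| ≤ C |f| (|z|/R)^n`, `2 b R ≤ n + 1`, `R ≤ 2`; all derivatives -/
theorem wprim_iter_all' (l : ℕ) {f g : ℂ → ℂ} {R b C : ℝ} {n : ℕ} (hR : 0 < R) (hR2 : R ≤ 2)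
    (hb0 : 0 ≤ b) (hf : ∀ z : ℂ, ‖z‖ ≤ R → DifferentiableAt ℂ f z)
    (hf' : ∀ z : ℂ, ‖z‖ ≤ R → ‖deriv f z‖ ≤ b * ‖f z‖)
    (hb : 2 * (b * R) ≤ n + 1) (hC : 0 ≤ C)
    (hg : AnalyticOnNhd ℂ g (closedBall 0 R))
    (hgb : ∀ z : ℂ, ‖z‖ ≤ R → ‖g z‖ ≤ C * ‖f z‖ * (‖z‖ / R) ^ n) :
    ∃ δ : ℂ → ℂ, AnalyticOnNhd ℂ δ (closedBall 0 R) ∧
      (∀ z : ℂ, ‖z‖ ≤ R → iteratedDeriv l δ z = g z) ∧
      ∀ i ≤ l, ∀ z : ℂ, ‖z‖ ≤ R →
        ‖iteratedDeriv i δ z‖ ≤ C * (4 / (n + 1)) ^ (l - i) * ‖f z‖ * (‖z‖ / R) ^ n := by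
  have hn : (0 : ℝ) < n + 1 := by positivity
  obtain ⟨δ, h1, h2, h3⟩ := wprim_iter_all l (C := C / R ^ n) (x := (n + 1) / 4) (n := n) hR hb0 hf
    hf' (by positivity) (by nlinarith) (by positivity) hg (fun z hz => by
      refine (hgb z hz).trans (le_of_eq ?_)
      rw [div_pow]
      ring)
  refine ⟨δ, h1, h2, fun i hi z hz => (h3 i hi z hz).trans (le_of_eq ?_)⟩
  rw [div_pow, div_pow, div_pow]
  field_simp

end Pool.Agent.Helper16.T78
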