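import Mathlib
import Pool.Agent.Helper16.T78.T1
import Pool.Agent.Helper16.T78.T6
import Pool.Agent.Helper16.T78.Div

/-!
# MP_78803a: adding a weighted primitive (common statement for RUN and EVENT)

`F = z^K u` near the closed disc, `|F| ≤ ε K^l |f|` on the circle, `|f'| ≤ X |f|` on the circle, `4 X ≤ K`:
the `l`-fold primitive `δ` of `F` satisfies `|δ^(i)| ≤ 4^l ε K^i |f| |z|^K` on the closed disc for all `i ≤ l`;
`f + δ` has no zero if `4^l ε < 1`.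
-/

set_option autoImplicit false

open Filter Topology Metric Complex

namespace Pool.Agent.Helper16.T78

/-- the logarithmic derivative bound passes from the circle to the disc -/
theorem logder_disc {f : ℂ → ℂ} {X : ℝ} (anf : AnalyticOnNhd ℂ f (closedBall 0 1))
    (fne : ∀ z : ℂ, ‖z‖ ≤ 1 → f z ≠ 0) (hf' : ∀ z : ℂ, ‖z‖ = 1 → ‖deriv f z‖ ≤ X * ‖f z‖) {z : ℂ}
    (hz : ‖z‖ ≤ 1) : ‖deriv f z‖ ≤ X * ‖f z‖ := by
  have h1 := norm_le_of_circle (R := 1) (f := fun z => deriv f z / f z) (M := X) one_pos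
    (fun z hz => (anf z hz).deriv.div (anf z hz) (fne z (by simpa using hz)))
    (fun w hw => by
      rw [norm_div, div_le_iff₀ (norm_pos_iff.2 (fne w hw.le))]
      exact hf' w hw) hz
  rwa [norm_div, div_le_iff₀ (norm_pos_iff.2 (fne z hz))] at h1

/-- **the `l`-fold weighted primitive**, with all derivatives -/
theorem add_prim (l : ℕ) {f F : ℂ → ℂ} {X eps : ℝ} {K : ℕ} (hX : 0 ≤ X) (hXK : 4 * X ≤ K)
    (he : 0 ≤ eps) (anf : AnalyticOnNhd ℂ f (closedBall 0 1))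
    (fne : ∀ z : ℂ, ‖z‖ ≤ 1 → f z ≠ 0) (hf' : ∀ z : ℂ, ‖z‖ = 1 → ‖deriv f z‖ ≤ X * ‖f z‖)
    (anF : AnalyticOnNhd ℂ F (closedBall 0 1)) (hF0 : Cg K F (fun _ => 0))
    (hFb : ∀ z : ℂ, ‖z‖ = 1 → ‖F z‖ ≤ eps * (K : ℝ) ^ l * ‖f z‖) :
    ∃ δ : ℂ → ℂ, AnalyticOnNhd ℂ δ (closedBall 0 1) ∧
      (∀ z : ℂ, ‖z‖ ≤ 1 → iteratedDeriv l δ z = F z) ∧
      (∀ i ≤ l, ∀ z : ℂ, ‖z‖ ≤ 1 →
        ‖iteratedDeriv i δ z‖ ≤ 4 ^ l * eps * (K : ℝ) ^ i * ‖z‖ ^ K * ‖f z‖) ∧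
      (4 ^ l * eps < 1 → ∀ z : ℂ, ‖z‖ ≤ 1 → f z + δ z ≠ 0) := by
  obtain ⟨u, hu, hFu⟩ := hF0.exists_div anF (fun z _ => analyticAt_const) (by simp)
  have hFu' : ∀ z, F z = z ^ K * u z := fun z => by
    have := hFu z
    rwa [sub_zero] at this
  have hM : ∀ z : ℂ, ‖z‖ = 1 → ‖z ^ K * u z‖ ≤ (eps * (K : ℝ) ^ l) * ‖f z‖ := by
    intro z hz
    rw [← hFu' z]
    exact hFb z hz
  have hFd : ∀ z : ℂ, ‖z‖ ≤ 1 → ‖F z‖ ≤ (eps * (K : ℝ) ^ l) * ‖f z‖ * (‖z‖ / 1) ^ K := by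
    intro z hz
    rw [hFu' z]
    exact schwarz_weighted one_pos hu anf fne hM hz
  obtain ⟨δ, h1, h2, h3⟩ := wprim_iter_all' l (R := 1) (b := X) (n := K) one_pos (by norm_num) hX
    (fun z hz => (anf z (by simpa using hz)).differentiableAt)
    (fun z hz => logder_disc anf fne hf' hz) (by linarith) (by positivity) anF hFd
  have hb : ∀ i ≤ l, ∀ z : ℂ, ‖z‖ ≤ 1 →
      ‖iteratedDeriv i δ z‖ ≤ 4 ^ l * eps * (K : ℝ) ^ i * ‖z‖ ^ K * ‖f z‖ := by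
    intro i hi z hz
    refine (h3 i hi z hz).trans ?_
    rw [div_one]
    have h4 : (4 / ((K : ℝ) + 1)) ^ (l - i) * (K : ℝ) ^ l ≤ 4 ^ l * (K : ℝ) ^ i := by
      have e1 : (K : ℝ) ^ l = (K : ℝ) ^ (l - i) * (K : ℝ) ^ i := by
        rw [← pow_add]
        congr 1
        omega
      rw [e1, ← mul_assoc, ← mul_pow]
      refine mul_le_mul_of_nonneg_right ?_ (by positivity)
      have e2 : 4 / ((K : ℝ) + 1) * K ≤ 4 := by
        rw [div_mul_eq_mul_div, div_le_iff₀ (by positivity)]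
        have : (0 : ℝ) ≤ K := Nat.cast_nonneg K
        linarith
      calc (4 / ((K : ℝ) + 1) * K) ^ (l - i) ≤ 4 ^ (l - i) := pow_le_pow_left₀ (by positivity) e2 _
        _ ≤ 4 ^ l := pow_le_pow_right₀ (by norm_num) (by omega)
    calc eps * (K : ℝ) ^ l * (4 / ((K : ℝ) + 1)) ^ (l - i) * ‖f z‖ * ‖z‖ ^ K
        = eps * ((4 / ((K : ℝ) + 1)) ^ (l - i) * (K : ℝ) ^ l) * (‖z‖ ^ K * ‖f z‖) := by ring
      _ ≤ eps * (4 ^ l * (K : ℝ) ^ i) * (‖z‖ ^ K * ‖f z‖) :=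
          mul_le_mul_of_nonneg_right (mul_le_mul_of_nonneg_left h4 he) (by positivity)
      _ = _ := by ring
  refine ⟨δ, h1, h2, hb, fun hlt z hz h0 => ?_⟩
  have h5 := hb 0 (Nat.zero_le l) z hz
  rw [iteratedDeriv_zero, pow_zero, mul_one] at h5
  have h6 : ‖f z‖ = ‖δ z‖ := by
    have : δ z = -f z := by linear_combination h0
    rw [this, norm_neg]
  have h7 : 0 < ‖f z‖ := norm_pos_iff.2 (fne z hz)
  have h8 : 4 ^ l * eps * ‖z‖ ^ K ≤ 4 ^ l * eps := by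
    have : ‖z‖ ^ K ≤ 1 := pow_le_one₀ (norm_nonneg _) hz
    nlinarith [show 0 ≤ 4 ^ l * eps by positivity]
  nlinarith

/-- derivatives of `f + δ` -/
theorem iteratedDeriv_add_closed {f δ : ℂ → ℂ} (hf : AnalyticOnNhd ℂ f (closedBall 0 1))
    (hδ : AnalyticOnNhd ℂ δ (closedBall 0 1)) (i : ℕ) {z : ℂ} (hz : ‖z‖ ≤ 1) :
    iteratedDeriv i (fun z => f z + δ z) z = iteratedDeriv i f z + iteratedDeriv i δ z :=
  iteratedDeriv_fun_add (hf z (by simpa using hz)).contDiffAt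
    (hδ z (by simpa using hz)).contDiffAt

end Pool.Agent.Helper16.T78
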