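import Pool.Agent.Helper81.QF.Defs
import Pool.Agent.Helper29.QF.PairFacts
import Pool.Agent.Helper29.QF.JJ
import Pool.Agent.Helper16.T78.AddPrim

/-!
# MP_78803a: the analytic part of one RUN step

`jj`, `Ps`, `Sg` along a pair are analytic near the closed disc, congruences modulo `z ^ k`,
and `run_step`: the new `f'`, `P'` of a RUN step with all derivatives.
-/

set_option autoImplicit false

namespace Pool.Agent.Helper16.T78

open Polynomial Metric Complex Filter Topology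
open Pool.Agent.Helper81.QF
open Pool.Agent.Helper29.QF (Bq_an Bq_lt poly_an quot_an jj_an jj_ne jj_norm ee_pos comp_an dl dl_pos)
open Pool.Agent.Helper84.Lam (lamD YD lamD_ne_zero lamD_ne_one diff_lamD)

variable {l m m' : ℕ} {b d b' d' : ℂ[X]}

theorem an_lamD {v : ℂ} (hv : ‖v‖ < 1) : AnalyticAt ℂ lamD v := by
  have h1 : DifferentiableOn ℂ lamD (ball 0 1) := fun w hw =>
    (diff_lamD (by simpa using hw)).differentiableWithinAt
  exact h1.analyticAt (isOpen_ball.mem_nhds (by simpa using hv))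

theorem an_thD {v : ℂ} (hv : ‖v‖ < 1) : AnalyticAt ℂ thD v := by
  have h1 : DifferentiableOn ℂ thD (ball 0 1) := fun w hw =>
    (Pool.Agent.Helper84.Lam.diff_thD (w := w) (by simpa using hw)).differentiableWithinAt
  exact h1.analyticAt (isOpen_ball.mem_nhds (by simpa using hv))

theorem an_lam_Bq (h : Pair m b d) : AnalyticOnNhd ℂ (fun z => lamD (Bq b d z)) (closedBall 0 1) :=
  comp_an h (fun _ hw => diff_lamD hw)

theorem an_thD_Bq (h : Pair m b d) : AnalyticOnNhd ℂ (fun z => thD (Bq b d z)) (closedBall 0 1) :=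
  comp_an h (fun _ hw => Pool.Agent.Helper84.Lam.diff_thD hw)

theorem one_sub_lam_ne (h : Pair m b d) {z : ℂ} (hz : ‖z‖ ≤ 1) : 1 - lamD (Bq b d z) ≠ 0 :=
  sub_ne_zero.2 (lamD_ne_one (Bq_lt h hz)).symm

theorem an_Ps (l : ℕ) (h : Pair m b d) :
    AnalyticOnNhd ℂ (fun z => Ps l (Bq b d z)) (closedBall 0 1) := by
  intro z hz
  exact analyticAt_const.sub ((an_lam_Bq h z hz).pow (l + 1))

theorem Ps_eq (l : ℕ) (v : ℂ) : Ps l v = (1 - lamD v) * Sg l v := by
  unfold Ps Sg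
  have h := geom_sum_mul (lamD v) (l + 1)
  linear_combination h

private theorem geom_le {x : ℝ} (hx : 0 ≤ x) (l : ℕ) :
    ∑ i ∈ Finset.range (l + 1), x ^ i ≤ (1 + x) ^ l := by
  induction l with
  | zero => simp
  | succ l ih =>
    rw [Finset.sum_range_succ, pow_succ (1 + x) l]
    have h1 : x ^ (l + 1) ≤ x * (1 + x) ^ l := by
      rw [pow_succ, mul_comm]
      exact mul_le_mul_of_nonneg_left (pow_le_pow_left₀ hx (by linarith) l) hx
    calc ∑ i ∈ Finset.range (l + 1), x ^ i + x ^ (l + 1) ≤ (1 + x) ^ l + x * (1 + x) ^ l :=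
          add_le_add ih h1
      _ = _ := by ring

theorem norm_Sg_le (l : ℕ) (v : ℂ) : ‖Sg l v‖ ≤ hD v ^ l := by
  unfold Sg
  refine (norm_sum_le _ _).trans ?_
  simp only [norm_pow]
  refine (geom_le (norm_nonneg _) l).trans ?_
  refine pow_le_pow_left₀ (by positivity) ?_ l
  unfold hD
  have := norm_nonneg (1 - lamD v)
  linarith

theorem norm_Ps_le (l : ℕ) (v : ℂ) : ‖Ps l v‖ ≤ ee l v := by
  rw [Ps_eq, norm_mul]
  unfold ee
  exact mul_le_mul_of_nonneg_left (norm_Sg_le l v) (norm_nonneg (1 - lamD v))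

theorem ee_nonneg (l : ℕ) (v : ℂ) : 0 ≤ ee l v := by
  unfold ee hD
  positivity

/-! ### Congruences -/

theorem ca_poly (p : ℂ[X]) : ContinuousAt (fun z => p.eval z) 0 := p.continuous.continuousAt

theorem cg_Bq {k : ℕ} (h : Pair m b d) (h' : Pair m' b' d')
    (hb : Cg k (fun z => b'.eval z) (fun z => b.eval z))
    (hd : Cg k (fun z => d'.eval z) (fun z => d.eval z)) : Cg k (Bq b' d') (Bq b d) := by
  refine Cg.div hb hd (ca_poly b') (ca_poly d') (ca_poly d) ?_ ?_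
  · rw [h.d0, h'.d0]
  · change d'.eval 0 ≠ 0
    rw [h'.d0]
    exact one_ne_zero

theorem ca_Bq (h : Pair m b d) : ContinuousAt (Bq b d) 0 :=
  (Bq_an h 0 (by simp)).continuousAt

theorem cg_comp_Bq {k : ℕ} {φ : ℂ → ℂ} (h : Pair m b d) (h' : Pair m' b' d')
    (hφ : ∀ v : ℂ, ‖v‖ < 1 → AnalyticAt ℂ φ v)
    (hB : Cg k (Bq b' d') (Bq b d)) (h0 : Bq b' d' 0 = Bq b d 0) :
    Cg k (fun z => φ (Bq b' d' z)) (fun z => φ (Bq b d z)) :=
  hB.comp (ca_Bq h') (ca_Bq h) h0 (hφ _ (Bq_lt h' (by simp)))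

theorem cg_Ps {k : ℕ} (l : ℕ) (h : Pair m b d) (h' : Pair m' b' d')
    (hB : Cg k (Bq b' d') (Bq b d)) (h0 : Bq b' d' 0 = Bq b d 0) :
    Cg k (fun z => Ps l (Bq b' d' z)) (fun z => Ps l (Bq b d z)) :=
  cg_comp_Bq h h' (fun _ hv => analyticAt_const.sub ((an_lamD hv).pow (l + 1))) hB h0

theorem cg_jj {k : ℕ} (l : ℕ) (h : Pair m b d) (h' : Pair m' b' d')
    (hd : Cg k (fun z => d'.eval z) (fun z => d.eval z))
    (hB : Cg k (Bq b' d') (Bq b d)) (h0 : Bq b' d' 0 = Bq b d 0) :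
    Cg k (jj l b' d') (jj l b d) := by
  have h1 := cg_comp_Bq (φ := thD) h h' (fun _ hv => an_thD hv) hB h0
  have h2 := cg_comp_Bq (φ := lamD) h h' (fun _ hv => an_lamD hv) hB h0
  have c1 : ContinuousAt (fun z => thD (Bq b' d' z)) 0 := (an_thD_Bq h' 0 (by simp)).continuousAt
  have c1' : ContinuousAt (fun z => thD (Bq b d z)) 0 := (an_thD_Bq h 0 (by simp)).continuousAt
  have c2 : ContinuousAt (fun z => lamD (Bq b' d' z)) 0 := (an_lam_Bq h' 0 (by simp)).continuousAt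
  have c2' : ContinuousAt (fun z => lamD (Bq b d z)) 0 := (an_lam_Bq h 0 (by simp)).continuousAt
  have hd0 : d'.eval 0 = d.eval 0 := by rw [h.d0, h'.d0]
  have h3 : Cg k (fun z => thD (Bq b' d' z) / d'.eval z ^ 2) (fun z => thD (Bq b d z) / d.eval z ^ 2) := by
    refine Cg.div (u := fun z => d'.eval z ^ 2) (v := fun z => d.eval z ^ 2) h1
      (hd.pow (ca_poly d') (ca_poly d) 2) c1 ((ca_poly d').pow 2) ((ca_poly d).pow 2) ?_ ?_
    · rw [hd0]
    · change d'.eval 0 ^ 2 ≠ 0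
      rw [h'.d0]
      norm_num
  have c3 : ContinuousAt (fun z => thD (Bq b' d' z) / d'.eval z ^ 2) 0 := by
    refine c1.div ((ca_poly d').pow 2) ?_
    rw [h'.d0]
    norm_num
  have c3' : ContinuousAt (fun z => thD (Bq b d z) / d.eval z ^ 2) 0 := by
    refine c1'.div ((ca_poly d).pow 2) ?_
    rw [h.d0]
    norm_num
  refine Cg.div (f := fun z => (thD (Bq b' d' z) / d'.eval z ^ 2) ^ l)
    (g := fun z => (thD (Bq b d z) / d.eval z ^ 2) ^ l) (u := fun z => 1 - lamD (Bq b' d' z))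
    (v := fun z => 1 - lamD (Bq b d z)) (h3.pow c3 c3' l) ((Cg.refl k _).sub h2) (c3.pow l)
    (continuousAt_const.sub c2) (continuousAt_const.sub c2') ?_ ?_
  · rw [h0]
  · exact one_sub_lam_ne h' (by simp)

/-- the ratio of the multipliers is `≡ 1` -/
theorem cg_jj_ratio {k : ℕ} (l : ℕ) (h : Pair m b d) (h' : Pair m' b' d')
    (hd : Cg k (fun z => d'.eval z) (fun z => d.eval z))
    (hB : Cg k (Bq b' d') (Bq b d)) (h0 : Bq b' d' 0 = Bq b d 0) :
    Cg k (fun z => jj l b' d' z / jj l b d z) (fun _ => 1) := by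
  have h00 : (0 : ℂ) ∈ closedBall (0 : ℂ) 1 := by simp
  have cq : Cg k (fun z => jj l b' d' z / jj l b d z) (fun z => jj l b d z / jj l b d z) := by
    refine Cg.div (cg_jj l h h' hd hB h0) (Cg.refl k _) (jj_an h' l 0 h00).continuousAt
      (jj_an h l 0 h00).continuousAt (jj_an h l 0 h00).continuousAt rfl
      (jj_ne h l (by simp))
  refine cq.trans (cg_of_mul (h := fun _ => 0) continuousAt_const ?_)
  filter_upwards [ball_mem_nhds (0 : ℂ) one_pos] with z hz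
  rw [div_self (jj_ne h l (by
    rw [mem_ball, dist_zero_right] at hz
    exact hz.le))]
  simp

/-- the step pair is congruent to the old pair -/
theorem cg_step {K : ℕ} (m : ℕ) (b d : ℂ[X]) {g : ℂ[X]} (hg : (Polynomial.X : ℂ[X]) ^ K ∣ g) :
    Cg K (fun z => (b + g * star m d).eval z) (fun z => b.eval z) ∧
      Cg K (fun z => (d + g * star m b).eval z) (fun z => d.eval z) := by
  obtain ⟨u, rfl⟩ := hg
  refine ⟨cg_of_mul (h := fun z => (u * star m d).eval z) (ca_poly _) ?_,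
    cg_of_mul (h := fun z => (u * star m b).eval z) (ca_poly _) ?_⟩
  · refine Filter.Eventually.of_forall fun z => ?_
    simp only [eval_add, eval_mul, eval_pow, eval_X]
    ring
  · refine Filter.Eventually.of_forall fun z => ?_
    simp only [eval_add, eval_mul, eval_pow, eval_X]
    ring

/-- the modulus of `P'` -/
theorem norm_P_step (l : ℕ) (h : Pair m b d) (h' : Pair m' b' d') (P : ℂ → ℂ) {z : ℂ}
    (hz : ‖z‖ ≤ 1) :
    ‖P z * (jj l b' d' z / jj l b d z)‖ * ee l (Bq b' d' z) =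
      ‖P z‖ * ee l (Bq b d z) * (YD (Bq b' d' z) / YD (Bq b d z)) ^ l *
        (dl b d z / dl b' d' z) ^ l := by
  have h1 := jj_norm h l hz
  have h2 := jj_norm h' l hz
  have hY : 0 < YD (Bq b d z) := by
    have := Pool.Agent.Helper84.Lam.YD_lower (Bq_lt h hz)
    linarith
  have hY' : 0 < YD (Bq b' d' z) := by
    have := Pool.Agent.Helper84.Lam.YD_lower (Bq_lt h' hz)
    linarith
  have hd := dl_pos h hz
  have hd' := dl_pos h' hz
  have he := ee_pos l (Bq_lt h hz)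
  have he' := ee_pos l (Bq_lt h' hz)
  have hj : 0 < ‖jj l b d z‖ := norm_pos_iff.2 (jj_ne h l hz)
  have hj' : 0 < ‖jj l b' d' z‖ := norm_pos_iff.2 (jj_ne h' l hz)
  have hpi := Real.pi_pos
  have e1 : ‖jj l b d z‖ = (2 * Real.pi * YD (Bq b d z)) ^ l / (ee l (Bq b d z) * dl b d z ^ l) := by
    rw [eq_div_iff (by positivity), ← h1]
    ring
  have e2 : ‖jj l b' d' z‖ =
      (2 * Real.pi * YD (Bq b' d' z)) ^ l / (ee l (Bq b' d' z) * dl b' d' z ^ l) := by
    rw [eq_div_iff (by positivity), ← h2]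
    ring
  rw [norm_mul, norm_div, e1, e2, div_pow, div_pow]
  simp only [mul_pow]
  field_simp

/-! ### The step -/

/-- **The analytic part of a RUN step.** -/
theorem run_step {l m K k' : ℕ} {X eps : ℝ} {b d g : ℂ[X]} {f P : ℂ → ℂ} (hl : 1 ≤ l)
    (hK : K ≠ 0) (h : Core l X m b d f P) (hg : (Polynomial.X : ℂ[X]) ^ K ∣ g)
    (hgd : g.natDegree ≤ k') (hXK : 4 * X ≤ K) (hg1 : ∀ z : ℂ, ‖z‖ = 1 → ‖g.eval z‖ < 1)
    (he0 : 0 ≤ eps)
    (hV : ∀ z : ℂ, ‖z‖ = 1 → ‖P z‖ * ee l (Bq b d z) ≤ eps * (K : ℝ) ^ l * ‖f z‖)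
    (hV' : ∀ z : ℂ, ‖z‖ = 1 → ‖P z‖ * ee l (Bq b d z) *
      (YD (Bq (b + g * star m d) (d + g * star m b) z) / YD (Bq b d z)) ^ l *
      (dl b d z / dl (b + g * star m d) (d + g * star m b) z) ^ l ≤ eps * (K : ℝ) ^ l * ‖f z‖) :
    ∃ f' P' : ℂ → ℂ, Pair (m + k') (b + g * star m d) (d + g * star m b) ∧
      (b + g * star m d).eval 0 = 0 ∧
      AnalyticOnNhd ℂ f' (closedBall 0 1) ∧ AnalyticOnNhd ℂ P' (closedBall 0 1) ∧
      (∀ z : ℂ, ‖z‖ ≤ 1 → P' z * jj l b d z = P z * jj l (b + g * star m d) (d + g * star m b) z) ∧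
      (∀ z : ℂ, ‖z‖ ≤ 1 → iteratedDeriv l f' z =
        P' z * Ps l (Bq (b + g * star m d) (d + g * star m b) z)) ∧
      (∀ i ≤ l, ∀ z : ℂ, ‖z‖ ≤ 1 → ‖iteratedDeriv i f' z - iteratedDeriv i f z‖ ≤
        4 ^ l * 2 * eps * (K : ℝ) ^ i * ‖z‖ ^ K * ‖f z‖) ∧
      (∀ z : ℂ, ‖z‖ ≤ 1 → ‖f' z - f z‖ ≤ 4 ^ l * 2 * eps * ‖z‖ ^ K * ‖f z‖) ∧
      f' 0 = 1 ∧ P' 0 = P 0 ∧
      (4 ^ l * 2 * eps < 1 → ∀ z : ℂ, ‖z‖ ≤ 1 → f' z ≠ 0) ∧
      (∀ z : ℂ, ‖z‖ ≤ 1 → ‖P' z‖ * ee l (Bq (b + g * star m d) (d + g * star m b) z) =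
        ‖P z‖ * ee l (Bq b d z) *
        (YD (Bq (b + g * star m d) (d + g * star m b) z) / YD (Bq b d z)) ^ l *
        (dl b d z / dl (b + g * star m d) (d + g * star m b) z) ^ l) ∧
      Cg K (Bq (b + g * star m d) (d + g * star m b)) (Bq b d) ∧
      Cg K (jj l (b + g * star m d) (d + g * star m b)) (jj l b d) ∧
      Cg K P' P := by
  have hX : 0 ≤ X := (Nat.cast_nonneg m).trans h.deg
  have hg0 : g.eval 0 = 0 := by
    obtain ⟨u, rfl⟩ := hg
    simp [hK]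
  have h' : Pair (m + k') (b + g * star m d) (d + g * star m b) := h.pair.step hgd hg0 hg1
  obtain ⟨cb, cd⟩ := cg_step m b d hg
  set b' := b + g * star m d with hb'
  set d' := d + g * star m b with hd'
  have hb0 : b'.eval 0 = 0 := by
    rw [hb', eval_add, eval_mul, h.b0, hg0]
    ring
  have hB0 : Bq b' d' 0 = Bq b d 0 := by
    unfold Bq
    rw [hb0, h.b0]
    simp
  have hB := cg_Bq h.pair h' cb cd
  have h0 : (0 : ℂ) ∈ closedBall (0 : ℂ) 1 := by simp
  have anq : AnalyticOnNhd ℂ (fun z => jj l b' d' z / jj l b d z) (closedBall 0 1) := fun z hz =>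
    (jj_an h' l z hz).div (jj_an h.pair l z hz) (jj_ne h.pair l (by simpa using hz))
  have anP' : AnalyticOnNhd ℂ (fun z => P z * (jj l b' d' z / jj l b d z)) (closedBall 0 1) :=
    fun z hz => (h.anP z hz).mul (anq z hz)
  have an1 : AnalyticOnNhd ℂ (fun z => (P z * (jj l b' d' z / jj l b d z)) * Ps l (Bq b' d' z))
      (closedBall 0 1) := fun z hz => (anP' z hz).mul (an_Ps l h' z hz)
  have an2 : AnalyticOnNhd ℂ (fun z => P z * Ps l (Bq b d z)) (closedBall 0 1) := fun z hz =>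
    (h.anP z hz).mul (an_Ps l h.pair z hz)
  have cP : Cg K (fun z => P z * (jj l b' d' z / jj l b d z)) P := by
    have c1 : Cg K (fun z => P z * (jj l b' d' z / jj l b d z)) (fun z => P z * 1) :=
      (Cg.refl K P).mul (cg_jj_ratio l h.pair h' cd hB hB0) (h.anP 0 h0).continuousAt
        continuousAt_const
    simpa using c1
  have cF : Cg K (fun z => (P z * (jj l b' d' z / jj l b d z)) * Ps l (Bq b' d' z) -
      P z * Ps l (Bq b d z)) (fun _ => 0) := by
    have c2 := cP.mul (cg_Ps l h.pair h' hB hB0)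
      (anP' 0 h0).continuousAt (an_Ps l h.pair 0 h0).continuousAt
    have c3 := c2.sub (Cg.refl K (fun z => P z * Ps l (Bq b d z)))
    simpa using c3
  have hFb : ∀ z : ℂ, ‖z‖ = 1 → ‖(P z * (jj l b' d' z / jj l b d z)) * Ps l (Bq b' d' z) -
      P z * Ps l (Bq b d z)‖ ≤ (2 * eps) * (K : ℝ) ^ l * ‖f z‖ := by
    intro z hz
    refine (norm_sub_le _ _).trans ?_
    have e1 : ‖P z * (jj l b' d' z / jj l b d z) * Ps l (Bq b' d' z)‖ ≤
        eps * (K : ℝ) ^ l * ‖f z‖ := by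
      rw [norm_mul]
      calc ‖P z * (jj l b' d' z / jj l b d z)‖ * ‖Ps l (Bq b' d' z)‖ ≤
            ‖P z * (jj l b' d' z / jj l b d z)‖ * ee l (Bq b' d' z) :=
            mul_le_mul_of_nonneg_left (norm_Ps_le l _) (norm_nonneg _)
        _ ≤ _ := by
            rw [norm_P_step l h.pair h' P hz.le]
            exact hV' z hz
    have e2 : ‖P z * Ps l (Bq b d z)‖ ≤ eps * (K : ℝ) ^ l * ‖f z‖ := by
      rw [norm_mul]
      exact (mul_le_mul_of_nonneg_left (norm_Ps_le l _) (norm_nonneg _)).trans (hV z hz)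
    refine (add_le_add e1 e2).trans (le_of_eq ?_)
    ring
  obtain ⟨δ, h1, h2, h3, h4⟩ := add_prim l hX hXK (by positivity : 0 ≤ 2 * eps) h.anf h.fne
    (fun z hz => by
      have := h.fder 1 hl z hz
      rwa [iteratedDeriv_one, pow_one] at this) (an1.sub an2) cF hFb
  have hdiff : ∀ i ≤ l, ∀ z : ℂ, ‖z‖ ≤ 1 →
      ‖iteratedDeriv i (fun z => f z + δ z) z - iteratedDeriv i f z‖ ≤
        4 ^ l * 2 * eps * (K : ℝ) ^ i * ‖z‖ ^ K * ‖f z‖ := by
    intro i hi z hz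
    rw [iteratedDeriv_add_closed h.anf h1 i hz, add_sub_cancel_left]
    refine (h3 i hi z hz).trans (le_of_eq ?_)
    ring
  have hdiff0 : ∀ z : ℂ, ‖z‖ ≤ 1 → ‖(f z + δ z) - f z‖ ≤ 4 ^ l * 2 * eps * ‖z‖ ^ K * ‖f z‖ := by
    intro z hz
    have := hdiff 0 (Nat.zero_le l) z hz
    rwa [iteratedDeriv_zero, iteratedDeriv_zero, pow_zero, mul_one] at this
  refine ⟨fun z => f z + δ z, fun z => P z * (jj l b' d' z / jj l b d z), h', hb0,
    h.anf.add h1, anP', fun z hz => ?_, fun z hz => ?_, hdiff, hdiff0, ?_, ?_, ?_,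
    fun z hz => norm_P_step l h.pair h' P hz, hB, cg_jj l h.pair h' cd hB hB0, cP⟩
  · have hj := jj_ne h.pair l hz
    simp only
    field_simp
  · rw [iteratedDeriv_add_closed h.anf h1 l hz, h.eq z hz, h2 z hz]
    simp only [Pi.sub_apply]
    ring
  · have h5 := hdiff0 0 (by simp)
    rw [norm_zero, zero_pow hK, mul_zero, zero_mul] at h5
    have h6 : (f 0 + δ 0) - f 0 = 0 := norm_eq_zero.1 (le_antisymm h5 (norm_nonneg _))
    have h7 := h.f0
    simp only
    linear_combination h6 + h7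
  · exact cP.eq_zero hK
  · intro hlt z hz
    exact h4 (by linarith) z hz

end Pool.Agent.Helper16.T78
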