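import Mathlib

/-!
# MP_78803a tools, T2, T3: derivative bounds from a bound of the real part, and log-Lipschitz functions
-/

set_option autoImplicit false

open Filter Topology Metric Complex

namespace Pool.Agent.Helper16.T78

private lemma schwarz_tr {g : ℂ} {M : ℝ} (hM : 0 < M) (hg : g.re ≤ M) : ‖g‖ ≤ ‖2 * (M : ℂ) - g‖ := by
  have h1 : normSq g ≤ normSq (2 * (M : ℂ) - g) := by
    rw [normSq_apply, normSq_apply]
    simp only [sub_re, mul_re, re_ofNat, ofReal_re, im_ofNat, ofReal_im, mul_zero, sub_zero,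
      sub_im, mul_im, zero_mul, add_zero, zero_sub]
    nlinarith
  rw [normSq_eq_norm_sq, normSq_eq_norm_sq] at h1
  exact (sq_le_sq₀ (norm_nonneg _) (norm_nonneg _)).1 h1

/-- a bound of the real part bounds the derivative at the centre -/
theorem deriv_centre {φ : ℂ → ℂ} {c : ℂ} {R A : ℝ} (hR : 0 < R)
    (hφ : DifferentiableOn ℂ φ (ball c R)) (h : ∀ z : ℂ, ‖z - c‖ < R → |(φ z).re| ≤ A) :
    ‖deriv φ c‖ ≤ 4 * A / R := by
  have hA0 : 0 ≤ A := (abs_nonneg _).trans (h c (by simpa using hR))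
  have key : ∀ M : ℝ, 2 * A < M → ‖deriv φ c‖ ≤ 2 * M / R := by
    intro M hM
    have hM0 : 0 < M := by linarith
    have hg : ∀ z ∈ ball c R, (φ z - φ c).re ≤ M := by
      intro z hz
      have h1 := abs_le.1 (h z (by rwa [← dist_eq_norm]))
      have h2 := abs_le.1 (h c (by simpa using hR))
      rw [sub_re]
      linarith [h1.2, h2.1]
    have hne : ∀ z ∈ ball c R, 2 * (M : ℂ) - (φ z - φ c) ≠ 0 := by
      intro z hz h0
      have h1 := hg z hz
      have h2 : (φ z - φ c) = 2 * (M : ℂ) := (sub_eq_zero.1 h0).symm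
      rw [h2] at h1
      simp at h1
      linarith
    have hd : DifferentiableOn ℂ (fun z => (φ z - φ c) / (2 * (M : ℂ) - (φ z - φ c))) (ball c R) :=
      (hφ.sub_const _).div ((hφ.sub_const _).const_sub _) hne
    have hmaps : Set.MapsTo (fun z => (φ z - φ c) / (2 * (M : ℂ) - (φ z - φ c))) (ball c R)
        (closedBall ((φ c - φ c) / (2 * (M : ℂ) - (φ c - φ c))) 1) := by
      intro z hz
      simp only [sub_self, zero_div, mem_closedBall, dist_zero_right, norm_div]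
      exact div_le_one_of_le₀ (schwarz_tr hM0 (hg z hz)) (norm_nonneg _)
    have h3 := norm_deriv_le_div_of_mapsTo_ball hd hmaps hR
    have hφc : DifferentiableAt ℂ φ c := hφ.differentiableAt (ball_mem_nhds c hR)
    have h4 : HasDerivAt (fun z => (φ z - φ c) / (2 * (M : ℂ) - (φ z - φ c)))
        ((deriv φ c * (2 * (M : ℂ) - (φ c - φ c)) - (φ c - φ c) * (-deriv φ c)) /
          (2 * (M : ℂ) - (φ c - φ c)) ^ 2) c := by
      have h5 : HasDerivAt (fun z => φ z - φ c) (deriv φ c) c := hφc.hasDerivAt.sub_const _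
      have h6 : HasDerivAt (fun z => 2 * (M : ℂ) - (φ z - φ c)) (-deriv φ c) c := by
        simpa using h5.const_sub (2 * (M : ℂ))
      exact h5.div h6 (hne c (mem_ball_self hR))
    rw [h4.deriv] at h3
    have hMc : (M : ℂ) ≠ 0 := by exact_mod_cast hM0.ne'
    have h7 : (deriv φ c * (2 * (M : ℂ) - (φ c - φ c)) - (φ c - φ c) * (-deriv φ c)) /
          (2 * (M : ℂ) - (φ c - φ c)) ^ 2 = deriv φ c / (2 * (M : ℂ)) := by
      rw [sub_self]
      field_simp
      ring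
    rw [h7, norm_div, norm_mul, Complex.norm_real, Real.norm_of_nonneg hM0.le,
      Complex.norm_ofNat, div_le_iff₀ (by positivity)] at h3
    refine h3.trans (le_of_eq ?_)
    ring
  have h8 : Tendsto (fun M : ℝ => 2 * M / R) (𝓝[>] (2 * A)) (𝓝 (2 * (2 * A) / R)) :=
    tendsto_nhdsWithin_of_tendsto_nhds (Continuous.tendsto (by fun_prop) _)
  have h9 := ge_of_tendsto h8 (eventually_nhdsWithin_of_forall fun M hM => key M hM)
  refine h9.trans (le_of_eq ?_)
  ring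

/-- T2: `|Re φ| ≤ A` on `|z| < R` gives `|φ'| ≤ 4 A / (R - |z|)` -/
theorem deriv_le {φ : ℂ → ℂ} {R A : ℝ} (hφ : DifferentiableOn ℂ φ (ball 0 R))
    (h : ∀ z : ℂ, ‖z‖ < R → |(φ z).re| ≤ A) {z : ℂ} (hz : ‖z‖ < R) :
    ‖deriv φ z‖ ≤ 4 * A / (R - ‖z‖) := by
  have hsub : ∀ w : ℂ, ‖w - z‖ < R - ‖z‖ → ‖w‖ < R := by
    intro w hw
    calc ‖w‖ = ‖(w - z) + z‖ := by ring_nf
      _ ≤ ‖w - z‖ + ‖z‖ := norm_add_le _ _
      _ < R := by linarith
  refine deriv_centre (by linarith) (hφ.mono ?_) (fun w hw => h w (hsub w hw))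
  intro w hw
  rw [mem_ball, dist_eq_norm] at hw
  simpa using hsub w hw

/-- T2: `|φ z - φ 0| ≤ 4 A |z| / (R - |z|)` -/
theorem sub_le {φ : ℂ → ℂ} {R A : ℝ} (hφ : DifferentiableOn ℂ φ (ball 0 R))
    (h : ∀ z : ℂ, ‖z‖ < R → |(φ z).re| ≤ A) {z : ℂ} (hz : ‖z‖ < R) :
    ‖φ z - φ 0‖ ≤ 4 * A * ‖z‖ / (R - ‖z‖) := by
  have hd : ∀ w ∈ closedBall (0 : ℂ) ‖z‖, DifferentiableAt ℂ φ w := by
    intro w hw
    refine hφ.differentiableAt (isOpen_ball.mem_nhds ?_)
    rw [mem_closedBall, dist_zero_right] at hw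
    simpa using hw.trans_lt hz
  have hA0 : 0 ≤ A := (abs_nonneg _).trans (h z hz)
  have h1 := (convex_closedBall (0 : ℂ) ‖z‖).norm_image_sub_le_of_norm_deriv_le (f := φ)
    (C := 4 * A / (R - ‖z‖)) (x := 0) (y := z) hd (fun w hw => by
      rw [mem_closedBall, dist_zero_right] at hw
      refine (deriv_le hφ h (hw.trans_lt hz)).trans ?_
      exact div_le_div_of_nonneg_left (by positivity) (by linarith) (by linarith))
    (by simp) (by simp)
  rw [sub_zero] at h1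
  refine h1.trans (le_of_eq ?_)
  ring

/-- T2, logarithmic version: `|φ z - φ 0| ≤ 4 A log (R / (R - |z|))` -/
theorem sub_le_log {φ : ℂ → ℂ} {R A : ℝ} (hφ : DifferentiableOn ℂ φ (ball 0 R))
    (h : ∀ z : ℂ, ‖z‖ < R → |(φ z).re| ≤ A) {z : ℂ} (hz : ‖z‖ < R) :
    ‖φ z - φ 0‖ ≤ 4 * A * Real.log (R / (R - ‖z‖)) := by
  have hR : 0 < R := (norm_nonneg z).trans_lt hz
  have hle : ∀ t : ℝ, t ∈ Set.Icc (0 : ℝ) 1 → ‖(t : ℂ) * z‖ = t * ‖z‖ := by
    intro t ht
    rw [norm_mul, Complex.norm_real, Real.norm_of_nonneg ht.1]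
  have hlt : ∀ t : ℝ, t ∈ Set.Icc (0 : ℝ) 1 → t * ‖z‖ < R := by
    intro t ht
    calc t * ‖z‖ ≤ 1 * ‖z‖ := mul_le_mul_of_nonneg_right ht.2 (norm_nonneg _)
      _ < R := by linarith
  have hd : ∀ t : ℝ, t ∈ Set.Icc (0 : ℝ) 1 →
      HasDerivAt (fun t : ℝ => φ ((t : ℂ) * z) - φ 0) (deriv φ ((t : ℂ) * z) * z) t := by
    intro t ht
    have h1 : HasDerivAt φ (deriv φ ((t : ℂ) * z)) ((t : ℂ) * z) := by
      refine (hφ.differentiableAt (isOpen_ball.mem_nhds ?_)).hasDerivAt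
      rw [mem_ball, dist_zero_right, hle t ht]
      exact hlt t ht
    have h2 : HasDerivAt (fun t : ℝ => (t : ℂ) * z) z t := by
      have h3 : HasDerivAt (fun t : ℝ => (t : ℂ)) 1 t := Complex.ofRealCLM.hasDerivAt
      simpa using h3.mul_const z
    have h4 : HasDerivAt (fun t : ℝ => φ ((t : ℂ) * z)) (deriv φ ((t : ℂ) * z) * z) t :=
      HasDerivAt.comp_of_eq (h₂ := φ) (h := fun t : ℝ => (t : ℂ) * z) t h1 h2 rfl
    exact h4.sub_const _
  have hB : ∀ t : ℝ, t ∈ Set.Icc (0 : ℝ) 1 →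
      HasDerivAt (fun t : ℝ => 4 * A * (Real.log R - Real.log (R - t * ‖z‖)))
        (4 * A * (‖z‖ / (R - t * ‖z‖))) t := by
    intro t ht
    have h1 := hlt t ht
    have h2 : HasDerivAt (fun t : ℝ => R - t * ‖z‖) (-‖z‖) t := by
      simpa using ((hasDerivAt_id t).mul_const ‖z‖).const_sub R
    have h3 := h2.log (by linarith)
    have h4 := (h3.const_sub (Real.log R)).const_mul (4 * A)
    refine h4.congr_deriv ?_
    ring
  have h1 := image_norm_le_of_norm_deriv_right_le_deriv_boundary' (a := 0) (b := 1)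
    (f := fun t : ℝ => φ ((t : ℂ) * z) - φ 0) (f' := fun t : ℝ => deriv φ ((t : ℂ) * z) * z)
    (fun t ht => (hd t ht).continuousAt.continuousWithinAt)
    (fun t ht => (hd t ⟨ht.1, ht.2.le⟩).hasDerivWithinAt)
    (B := fun t : ℝ => 4 * A * (Real.log R - Real.log (R - t * ‖z‖)))
    (B' := fun t : ℝ => 4 * A * (‖z‖ / (R - t * ‖z‖)))
    (by simp) (fun t ht => (hB t ht).continuousAt.continuousWithinAt)
    (fun t ht => (hB t ⟨ht.1, ht.2.le⟩).hasDerivWithinAt)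
    (fun t ht => by
      have ht' : t ∈ Set.Icc (0 : ℝ) 1 := ⟨ht.1, ht.2.le⟩
      rw [norm_mul]
      have h5 := deriv_le hφ h (z := (t : ℂ) * z) (by rw [hle t ht']; exact hlt t ht')
      rw [hle t ht'] at h5
      calc ‖deriv φ ((t : ℂ) * z)‖ * ‖z‖ ≤ 4 * A / (R - t * ‖z‖) * ‖z‖ :=
            mul_le_mul_of_nonneg_right h5 (norm_nonneg _)
        _ = _ := by ring) (x := 1) ⟨zero_le_one, le_rfl⟩
  simp only [ofReal_one, one_mul] at h1
  rwa [Real.log_div hR.ne' (by linarith)]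

/-- T3: a log-Lipschitz analytic function: `|g'| ≤ L |g|` on the disc of radius `r` around `z`, `L r ≤ 1` -/
theorem norm_le_of_log_lip {g : ℂ → ℂ} {z w : ℂ} {L r : ℝ} (hL : 0 ≤ L)
    (hg : ∀ v : ℂ, ‖v - z‖ ≤ r → DifferentiableAt ℂ g v)
    (h : ∀ v : ℂ, ‖v - z‖ ≤ r → ‖deriv g v‖ ≤ L * ‖g v‖) (hw : ‖w - z‖ ≤ r) :
    ‖g w‖ ≤ ‖g z‖ * Real.exp (L * ‖w - z‖) := by
  have hin : ∀ t : ℝ, t ∈ Set.Icc (0 : ℝ) 1 → ‖z + (t : ℂ) * (w - z) - z‖ ≤ r := by
    intro t ht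
    rw [add_sub_cancel_left, norm_mul, Complex.norm_real, Real.norm_of_nonneg ht.1]
    calc t * ‖w - z‖ ≤ 1 * ‖w - z‖ := mul_le_mul_of_nonneg_right ht.2 (norm_nonneg _)
      _ ≤ r := by linarith
  have hd : ∀ t : ℝ, t ∈ Set.Icc (0 : ℝ) 1 →
      HasDerivAt (fun t : ℝ => g (z + (t : ℂ) * (w - z)))
        (deriv g (z + (t : ℂ) * (w - z)) * (w - z)) t := by
    intro t ht
    have h1 : HasDerivAt g (deriv g (z + (t : ℂ) * (w - z))) (z + (t : ℂ) * (w - z)) :=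
      (hg _ (hin t ht)).hasDerivAt
    have h2 : HasDerivAt (fun t : ℝ => z + (t : ℂ) * (w - z)) (w - z) t := by
      have h3 : HasDerivAt (fun t : ℝ => (t : ℂ)) 1 t := Complex.ofRealCLM.hasDerivAt
      simpa using (h3.mul_const (w - z)).const_add z
    exact HasDerivAt.comp_of_eq (h₂ := g) (h := fun t : ℝ => z + (t : ℂ) * (w - z)) t h1 h2 rfl
  have h1 := norm_le_gronwallBound_of_norm_deriv_right_le (a := 0) (b := 1)
    (f := fun t : ℝ => g (z + (t : ℂ) * (w - z)))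
    (f' := fun t : ℝ => deriv g (z + (t : ℂ) * (w - z)) * (w - z))
    (δ := ‖g z‖) (K := L * ‖w - z‖) (ε := 0)
    (fun t ht => (hd t ht).continuousAt.continuousWithinAt)
    (fun t ht => (hd t ⟨ht.1, ht.2.le⟩).hasDerivWithinAt) (by simp) (fun t ht => by
      have ht' : t ∈ Set.Icc (0 : ℝ) 1 := ⟨ht.1, ht.2.le⟩
      rw [norm_mul, add_zero]
      calc ‖deriv g (z + (t : ℂ) * (w - z))‖ * ‖w - z‖ ≤
            (L * ‖g (z + (t : ℂ) * (w - z))‖) * ‖w - z‖ :=
            mul_le_mul_of_nonneg_right (h _ (hin t ht')) (norm_nonneg _)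
        _ = _ := by ring) 1 ⟨zero_le_one, le_rfl⟩
  rw [gronwallBound_ε0] at h1
  simpa using h1

/-- T3: higher derivatives of a log-Lipschitz function -/
theorem iteratedDeriv_le_of_log_lip {g : ℂ → ℂ} {z : ℂ} {L r : ℝ} (hL : 0 ≤ L) (hr : 0 < r)
    (hLr : L * r ≤ 1) (hg : AnalyticOnNhd ℂ g (closedBall z r))
    (h : ∀ v : ℂ, ‖v - z‖ ≤ r → ‖deriv g v‖ ≤ L * ‖g v‖) (l : ℕ) :
    ‖iteratedDeriv l g z‖ ≤ l.factorial * Real.exp 1 / r ^ l * ‖g z‖ := by
  have hd : DiffContOnCl ℂ g (ball z r) := by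
    refine ⟨fun w hw => (hg w (ball_subset_closedBall hw)).differentiableAt.differentiableWithinAt,
      ?_⟩
    rw [closure_ball z hr.ne']
    exact hg.continuousOn
  have h1 := norm_iteratedDeriv_le_of_forall_mem_sphere_norm_le (n := l) (c := z) (R := r)
    (C := ‖g z‖ * Real.exp 1) hr hd (fun w hw => by
      rw [mem_sphere, dist_eq_norm] at hw
      refine (norm_le_of_log_lip hL (fun v hv => (hg v (by
        rwa [mem_closedBall, dist_eq_norm])).differentiableAt) h hw.le).trans ?_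
      refine mul_le_mul_of_nonneg_left (Real.exp_le_exp.2 ?_) (norm_nonneg _)
      rw [hw]
      exact hLr)
  refine h1.trans (le_of_eq ?_)
  ring

end Pool.Agent.Helper16.T78
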