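import Mathlib

/-!
# MP_78803a tools, T4, T5: mean squares and the contour shift
-/

set_option autoImplicit false

open Filter Topology Metric Complex Real

namespace Pool.Agent.Helper16.T78

/-- T4: `E |D|² = 2 E (Re D)²` if `D 0 = 0` -/
theorem mean_sq {D : ℂ → ℂ} (hD : DiffContOnCl ℂ D (ball 0 1)) (h0 : D 0 = 0) :
    circleAverage (fun z => ‖D z‖ ^ 2) 0 1 = 2 * circleAverage (fun z => (D z).re ^ 2) 0 1 := by
  have hcl : closure (ball (0 : ℂ) 1) = closedBall 0 1 := closure_ball 0 one_ne_zero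
  have hc : ContinuousOn D (sphere (0 : ℂ) 1) :=
    hD.continuousOn.mono (by rw [hcl]; exact sphere_subset_closedBall)
  have h1 : DiffContOnCl ℂ (fun z => D z ^ 2) (ball 0 |1|) := by
    rw [abs_one]
    have := hD.smul hD
    simpa [sq] using this
  have h2 : circleAverage (fun z => D z ^ 2) 0 1 = 0 := by
    rw [h1.circleAverage, h0]
    simp
  have hi : CircleIntegrable (fun z => D z ^ 2) 0 1 := (hc.pow 2).circleIntegrable zero_le_one
  have h3 : circleAverage (fun z => (D z ^ 2).re) 0 1 = 0 := by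
    have h4 := Complex.reCLM.circleAverage_comp_comm hi
    rw [h2] at h4
    simpa [Function.comp_def] using h4
  have hir : CircleIntegrable (fun z => (D z).re ^ 2) 0 1 :=
    ((Complex.continuous_re.comp_continuousOn hc).pow 2).circleIntegrable zero_le_one
  have hin : CircleIntegrable (fun z => ‖D z‖ ^ 2) 0 1 := (hc.norm.pow 2).circleIntegrable zero_le_one
  have hir2 : CircleIntegrable (fun z => (D z ^ 2).re) 0 1 :=
    (Complex.continuous_re.comp_continuousOn (hc.pow 2)).circleIntegrable zero_le_one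
  have h5 : circleAverage (fun z => ‖D z‖ ^ 2 + (D z ^ 2).re) 0 1 =
      circleAverage (fun z => ‖D z‖ ^ 2) 0 1 + 0 := by
    rw [circleAverage_fun_add hin hir2, h3]
  rw [add_zero] at h5
  rw [← h5, ← smul_eq_mul, ← circleAverage_fun_smul]
  refine circleAverage_congr_sphere (fun z _ => ?_)
  simp only [smul_eq_mul]
  rw [← normSq_eq_norm_sq, normSq_apply, sq (D z), mul_re]
  ring

/-- the mean does not depend on the radius on an annulus -/
theorem circleAverage_annulus {F : ℂ → ℂ} {r R : ℝ} (h0 : 0 < r) (hle : r ≤ R)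
    (hc : ContinuousOn F (closedBall 0 R \ ball 0 r))
    (hd : ∀ z ∈ ball (0 : ℂ) R \ closedBall 0 r, DifferentiableAt ℂ F z) :
    circleAverage F 0 R = circleAverage F 0 r := by
  have h1 := circleIntegral_sub_center_inv_smul_eq_of_differentiable_on_annulus_off_countable
    (c := 0) h0 hle (s := ∅) Set.countable_empty hc (fun z hz => hd z (by simpa using hz))
  rw [circleAverage_eq_circleIntegral (by linarith), circleAverage_eq_circleIntegral h0.ne', h1]

/-- T5: `|E[conj π · D]| ≤ M₁ M₂ R^(-k)` for `π` analytic in `|z| < R` and `D = O(z^k)` in `|z| < 1` -/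
theorem cross_le {p D h : ℂ → ℂ} {R M₁ M₂ : ℝ} {k : ℕ} (hR : 1 ≤ R)
    (hp : DiffContOnCl ℂ p (ball 0 R)) (hM1 : ∀ z : ℂ, ‖z‖ = R → ‖p z‖ ≤ M₁)
    (hh : DiffContOnCl ℂ h (ball 0 1)) (hD : ∀ z : ℂ, ‖z‖ = 1 → D z = z ^ k * h z)
    (hM2 : ∀ z : ℂ, ‖z‖ = 1 → ‖D z‖ ≤ M₂) :
    ‖circleAverage (fun z => (starRingEnd ℂ) (p z) * D z) 0 1‖ ≤ M₁ * M₂ * (R⁻¹) ^ k := by
  have hR0 : 0 < R := by linarith
  have hclR : closure (ball (0 : ℂ) R) = closedBall 0 R := closure_ball 0 hR0.ne'
  have hcl1 : closure (ball (0 : ℂ) 1) = closedBall 0 1 := closure_ball 0 one_ne_zero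
  have hRi : R⁻¹ ≤ 1 := inv_le_one_of_one_le₀ hR
  have hRi0 : 0 < R⁻¹ := inv_pos.2 hR0
  -- the bound of `h`
  have hhb : ∀ z : ℂ, ‖z‖ ≤ 1 → ‖h z‖ ≤ M₂ := by
    intro z hz
    refine norm_le_of_forall_mem_frontier_norm_le isBounded_ball hh (fun w hw => ?_) ?_
    · rw [frontier_ball 0 one_ne_zero, mem_sphere_zero_iff_norm] at hw
      have h1 := hM2 w hw
      rwa [hD w hw, norm_mul, norm_pow, hw, one_pow, one_mul] at h1
    · rw [hcl1]
      simpa using hz
  -- the reflected function
  set F : ℂ → ℂ := fun z => (starRingEnd ℂ) (p ((starRingEnd ℂ) z⁻¹)) * (z ^ k * h z) with hF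
  have hne : ∀ z ∈ closedBall (0 : ℂ) 1 \ ball 0 R⁻¹, z ≠ 0 := by
    intro z hz h0
    refine hz.2 ?_
    rw [h0]
    simpa using hR0
  have hnorm : ∀ z ∈ closedBall (0 : ℂ) 1 \ ball 0 R⁻¹, ‖(starRingEnd ℂ) z⁻¹‖ ≤ R := by
    intro z hz
    rw [Complex.norm_conj, norm_inv]
    have h1 : R⁻¹ ≤ ‖z‖ := by simpa using hz.2
    exact inv_le_of_inv_le₀ hR0 h1
  have hFc : ContinuousOn F (closedBall 0 1 \ ball 0 R⁻¹) := by
    have hq : ContinuousOn (fun z : ℂ => (starRingEnd ℂ) z⁻¹) (closedBall 0 1 \ ball 0 R⁻¹) :=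
      Complex.continuous_conj.comp_continuousOn (continuousOn_id.inv₀ hne)
    refine ContinuousOn.mul ?_ ?_
    · refine Complex.continuous_conj.comp_continuousOn ?_
      refine ContinuousOn.comp (t := closedBall (0 : ℂ) R) ?_ hq ?_
      · rw [← hclR]
        exact hp.continuousOn
      · intro z hz
        rw [mem_closedBall, dist_zero_right]
        exact hnorm z hz
    · refine ContinuousOn.mul (by fun_prop) ?_
      refine hh.continuousOn.mono ?_
      rw [hcl1]
      exact Set.diff_subset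
  have hFd : ∀ z ∈ ball (0 : ℂ) 1 \ closedBall 0 R⁻¹, DifferentiableAt ℂ F z := by
    intro z hz
    have hz1 : ‖z‖ < 1 := by simpa using hz.1
    have hz2 : R⁻¹ < ‖z‖ := by simpa using hz.2
    have hz0 : z ≠ 0 := by
      intro h0
      rw [h0, norm_zero] at hz2
      linarith
    have h1 : DifferentiableAt ℂ (fun z : ℂ => (starRingEnd ℂ) (p ((starRingEnd ℂ) z⁻¹))) z := by
      have h2 : ‖(starRingEnd ℂ) z⁻¹‖ < R := by
        rw [Complex.norm_conj, norm_inv]
        exact inv_lt_of_inv_lt₀ hR0 hz2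
      have h3 : DifferentiableAt ℂ p ((starRingEnd ℂ) z⁻¹) :=
        hp.differentiableOn.differentiableAt (isOpen_ball.mem_nhds (by simpa using h2))
      have h4 : DifferentiableAt ℂ (fun w : ℂ => (starRingEnd ℂ) (p ((starRingEnd ℂ) w))) z⁻¹ := by
        have := h3.hasDerivAt.conj_conj
        rw [Complex.conj_conj] at this
        exact this.differentiableAt
      exact h4.comp z (differentiableAt_inv hz0)
    refine h1.mul ((differentiableAt_id.pow k).mul ?_)
    exact hh.differentiableOn.differentiableAt (isOpen_ball.mem_nhds hz.1)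
  have h6 := circleAverage_annulus hRi0 hRi hFc hFd
  have h7 : circleAverage (fun z => (starRingEnd ℂ) (p z) * D z) 0 1 = circleAverage F 0 1 := by
    refine circleAverage_congr_sphere (fun z hz => ?_)
    have hz1 : ‖z‖ = 1 := by simpa using hz
    have hconj : (starRingEnd ℂ) z⁻¹ = z := by
      rw [Complex.inv_def, Complex.normSq_eq_norm_sq, hz1]
      simp
    simp only [hF]
    rw [hconj, hD z hz1]
  rw [h7, h6, circleAverage_def, norm_smul]
  have hpi := Real.pi_pos
  rw [norm_inv, Real.norm_of_nonneg (by positivity)]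
  have h8 := intervalIntegral.norm_integral_le_of_norm_le_const (a := 0) (b := 2 * π)
    (C := M₁ * M₂ * (R⁻¹) ^ k) (f := fun t : ℝ => F (circleMap 0 R⁻¹ t)) (fun t _ => by
      have hn : ‖circleMap 0 R⁻¹ t‖ = R⁻¹ := by
        simp [abs_of_pos hR0]
      have h9 : ‖p ((starRingEnd ℂ) (circleMap 0 R⁻¹ t)⁻¹)‖ ≤ M₁ := by
        refine hM1 _ ?_
        rw [Complex.norm_conj, norm_inv, hn, inv_inv]
      have h10 : ‖h (circleMap 0 R⁻¹ t)‖ ≤ M₂ := hhb _ (by rw [hn]; exact hRi)
      simp only [hF]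
      rw [norm_mul, norm_mul, norm_pow, hn, Complex.norm_conj]
      calc _ ≤ M₁ * ((R⁻¹) ^ k * M₂) := by
            refine mul_le_mul h9 (mul_le_mul_of_nonneg_left h10 (by positivity)) (by positivity)
              ((norm_nonneg _).trans h9)
        _ = _ := by ring)
  rw [sub_zero, abs_of_pos (by positivity)] at h8
  rw [inv_mul_le_iff₀ (by positivity)]
  linarith

/-- consequence of T4 and T5: `E (Re (p + D))² ≤ E (Re p)² + E (Re D)² + M₁ M₂ R^(-k)` -/
theorem mean_sq_add {p D h : ℂ → ℂ} {R M₁ M₂ : ℝ} {k : ℕ} (hR : 1 < R) (hk : k ≠ 0)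
    (hp : DiffContOnCl ℂ p (ball 0 R)) (hM1 : ∀ z : ℂ, ‖z‖ = R → ‖p z‖ ≤ M₁)
    (hh : DiffContOnCl ℂ h (ball 0 1)) (hD : ∀ z : ℂ, ‖z‖ ≤ 1 → D z = z ^ k * h z)
    (hM2 : ∀ z : ℂ, ‖z‖ = 1 → ‖D z‖ ≤ M₂) :
    circleAverage (fun z => (p z + D z).re ^ 2) 0 1 ≤
      circleAverage (fun z => (p z).re ^ 2) 0 1 + circleAverage (fun z => (D z).re ^ 2) 0 1 +
        M₁ * M₂ * (R⁻¹) ^ k := by
  have hR0 : 0 < R := by linarith
  have hcl1 : closure (ball (0 : ℂ) 1) = closedBall 0 1 := closure_ball 0 one_ne_zero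
  have hpd : DifferentiableOn ℂ p (ball 0 R) := hp.differentiableOn
  have hpc : ContinuousOn p (sphere (0 : ℂ) 1) := hpd.continuousOn.mono
    (sphere_subset_closedBall.trans (closedBall_subset_ball hR))
  have hhc : ContinuousOn h (sphere (0 : ℂ) 1) :=
    hh.continuousOn.mono (by rw [hcl1]; exact sphere_subset_closedBall)
  have hDc : ContinuousOn D (sphere (0 : ℂ) 1) := by
    have h1 : ContinuousOn (fun z : ℂ => z ^ k * h z) (sphere (0 : ℂ) 1) :=
      ContinuousOn.mul (by fun_prop) hhc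
    refine h1.congr (fun z hz => hD z ?_)
    have : ‖z‖ = 1 := by simpa using hz
    exact this.le
  -- `E[p D] = 0`
  have h2 : circleAverage (fun z => p z * D z) 0 1 = 0 := by
    have h3 : DiffContOnCl ℂ (fun z => p z * (z ^ k * h z)) (ball 0 |1|) := by
      rw [abs_one]
      have h4 : DiffContOnCl ℂ p (ball 0 1) :=
        ⟨hpd.mono (ball_subset_ball hR.le), by
          rw [hcl1]
          exact hpd.continuousOn.mono (closedBall_subset_ball hR)⟩
      have h5 : DiffContOnCl ℂ (fun z : ℂ => z ^ k) (ball 0 1) :=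
        (differentiable_pow k).diffContOnCl
      simpa using h4.smul (h5.smul hh)
    have h6 : circleAverage (fun z => p z * D z) 0 1 =
        circleAverage (fun z => p z * (z ^ k * h z)) 0 1 := by
      refine circleAverage_congr_sphere (fun z hz => ?_)
      have : ‖z‖ = 1 := by simpa using hz
      simp only [hD z this.le]
    rw [h6, h3.circleAverage]
    simp [hk]
  have h3 := cross_le hR.le hp hM1 hh (fun z hz => hD z hz.le) hM2
  have hi1 : CircleIntegrable (fun z => p z * D z) 0 1 := (hpc.mul hDc).circleIntegrable zero_le_one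
  have hcc : ContinuousOn (fun z => (starRingEnd ℂ) (p z) * D z) (sphere (0 : ℂ) 1) :=
    (Complex.continuous_conj.comp_continuousOn hpc).mul hDc
  have hi2 : CircleIntegrable (fun z => (starRingEnd ℂ) (p z) * D z) 0 1 :=
    hcc.circleIntegrable zero_le_one
  have h4 : circleAverage (fun z => (p z * D z).re) 0 1 = 0 := by
    have h5 := Complex.reCLM.circleAverage_comp_comm hi1
    rw [h2] at h5
    simpa [Function.comp_def] using h5
  have h5 : circleAverage (fun z => ((starRingEnd ℂ) (p z) * D z).re) 0 1 ≤ M₁ * M₂ * (R⁻¹) ^ k := by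
    have h6 := Complex.reCLM.circleAverage_comp_comm hi2
    have h7 : circleAverage (fun z => ((starRingEnd ℂ) (p z) * D z).re) 0 1 =
        (circleAverage (fun z => (starRingEnd ℂ) (p z) * D z) 0 1).re := by
      simpa [Function.comp_def] using h6
    rw [h7]
    exact (Complex.re_le_norm _).trans h3
  have hr1 : CircleIntegrable (fun z => (p z).re ^ 2) 0 1 :=
    ((Complex.continuous_re.comp_continuousOn hpc).pow 2).circleIntegrable zero_le_one
  have hr2 : CircleIntegrable (fun z => (D z).re ^ 2) 0 1 :=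
    ((Complex.continuous_re.comp_continuousOn hDc).pow 2).circleIntegrable zero_le_one
  have hr3 : CircleIntegrable (fun z => (p z * D z).re) 0 1 :=
    (Complex.continuous_re.comp_continuousOn (hpc.mul hDc)).circleIntegrable zero_le_one
  have hr4 : CircleIntegrable (fun z => ((starRingEnd ℂ) (p z) * D z).re) 0 1 :=
    (Complex.continuous_re.comp_continuousOn hcc).circleIntegrable zero_le_one
  have h8 : circleAverage (fun z => (p z + D z).re ^ 2) 0 1 =
      circleAverage (fun z => ((p z).re ^ 2 + (D z).re ^ 2) +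
        ((p z * D z).re + ((starRingEnd ℂ) (p z) * D z).re)) 0 1 := by
    refine circleAverage_congr_sphere (fun z _ => ?_)
    simp only [add_re, mul_re, conj_re, conj_im]
    ring
  have hs1 : CircleIntegrable (fun z => (p z).re ^ 2 + (D z).re ^ 2) 0 1 := hr1.add hr2
  have hs2 : CircleIntegrable (fun z => (p z * D z).re + ((starRingEnd ℂ) (p z) * D z).re) 0 1 :=
    hr3.add hr4
  rw [h8, circleAverage_fun_add hs1 hs2, circleAverage_fun_add hr1 hr2,
    circleAverage_fun_add hr3 hr4, h4]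
  linarith

end Pool.Agent.Helper16.T78
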