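import Mathlib
import Pool.Agent.Helper16.T78.T4
import Pool.Agent.Helper16.T78.T6

/-!
# MP_78803a tools, T5': orthogonality by integration by parts on the circle

`A = O(z^k)`: `|E[conj Ξ · A]| ≤ sup |Ξ'| sup |A| / k`.
-/

set_option autoImplicit false

open Filter Topology Metric Complex Real

namespace Pool.Agent.Helper16.T78

theorem cross_parts {Xi A h : ℂ → ℂ} {M₁ M₂ : ℝ} {k : ℕ} (hk : 1 ≤ k)
    (hX : AnalyticOnNhd ℂ Xi (closedBall 0 1)) (hh : AnalyticOnNhd ℂ h (closedBall 0 1))
    (hA : ∀ z : ℂ, ‖z‖ = 1 → A z = z ^ k * h z)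
    (hM1 : ∀ z : ℂ, ‖z‖ = 1 → ‖deriv Xi z‖ ≤ M₁) (hM2 : ∀ z : ℂ, ‖z‖ = 1 → ‖A z‖ ≤ M₂) :
    ‖circleAverage (fun z => (starRingEnd ℂ) (Xi z) * A z) 0 1‖ ≤ M₁ * M₂ / k := by
  have hM20 : 0 ≤ M₂ := (norm_nonneg _).trans (hM2 1 (by simp))
  have hk0 : (0 : ℝ) < k := by exact_mod_cast hk
  -- the bound of `h`
  have hhb : ∀ z : ℂ, ‖z‖ ≤ 1 → ‖h z‖ ≤ M₂ := by
    intro z hz
    have hcl : closure (ball (0 : ℂ) 1) = closedBall 0 1 := closure_ball 0 one_ne_zero
    have hd : DiffContOnCl ℂ h (ball 0 1) := by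
      refine ⟨fun z hz => (hh z (ball_subset_closedBall hz)).differentiableAt.differentiableWithinAt,
        ?_⟩
      rw [hcl]
      exact hh.continuousOn
    refine norm_le_of_forall_mem_frontier_norm_le isBounded_ball hd (fun w hw => ?_) ?_
    · rw [frontier_ball 0 one_ne_zero, mem_sphere_zero_iff_norm] at hw
      have h1 := hM2 w hw
      rwa [hA w hw, norm_mul, norm_pow, hw, one_pow, one_mul] at h1
    · rw [hcl]
      simpa using hz
  -- the primitive of `A / z`
  obtain ⟨G, hG1, hG2, hG3⟩ := wprim (f := fun _ => 1) (g := fun z => z ^ (k - 1) * h z)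
    (R := 1) (b := 0) (C := M₂) (n := k - 1) one_pos le_rfl (fun z _ => differentiableAt_const _)
    (fun z _ => by simp) (by rw [zero_mul]; positivity) hM20
    (by
      intro z hz
      exact (analyticAt_id.pow (k - 1)).mul (hh z hz))
    (fun z hz => by
      rw [norm_mul, norm_pow, norm_one, mul_one, mul_comm]
      exact mul_le_mul_of_nonneg_right (hhb z hz) (by positivity))
  have hGb : ∀ z : ℂ, ‖z‖ = 1 → ‖G z‖ ≤ M₂ / k := by
    intro z hz
    have h1 := hG3 z hz.le
    rw [hz, one_pow, norm_one, mul_one, mul_one, zero_mul, sub_zero] at h1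
    have h2 : ((k - 1 : ℕ) : ℝ) + 1 = k := by
      rw [Nat.cast_sub hk]
      push_cast
      ring
    rwa [h2] at h1
  have hcirc : ∀ t : ℝ, ‖circleMap 0 1 t‖ = 1 := by
    intro t
    simp
  -- derivatives along the circle
  have hX' : ∀ t : ℝ, HasDerivAt (fun t : ℝ => (starRingEnd ℂ) (Xi (circleMap 0 1 t)))
      ((starRingEnd ℂ) (deriv Xi (circleMap 0 1 t) * (circleMap 0 1 t * I))) t := by
    intro t
    have h1 : HasDerivAt Xi (deriv Xi (circleMap 0 1 t)) (circleMap 0 1 t) :=
      (hX _ (by rw [mem_closedBall, dist_zero_right]; exact (hcirc t).le)).differentiableAt.hasDerivAt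
    have h2 : HasDerivAt (circleMap 0 1) (circleMap 0 1 t * I) t := hasDerivAt_circleMap 0 1 t
    have h3 : HasDerivAt (fun t : ℝ => Xi (circleMap 0 1 t))
        (deriv Xi (circleMap 0 1 t) * (circleMap 0 1 t * I)) t :=
      HasDerivAt.comp_of_eq (h₂ := Xi) (h := circleMap 0 1) t h1 h2 rfl
    exact Complex.conjCLE.toContinuousLinearMap.hasFDerivAt.comp_hasDerivAt t h3
  have hG' : ∀ t : ℝ, HasDerivAt (fun t : ℝ => G (circleMap 0 1 t))
      (A (circleMap 0 1 t) * I) t := by
    intro t
    have h1 := hG2 (circleMap 0 1 t) (by rw [mem_closedBall, dist_zero_right]; exact (hcirc t).le)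
    have h2 : HasDerivAt (circleMap 0 1) (circleMap 0 1 t * I) t := hasDerivAt_circleMap 0 1 t
    have h3 : HasDerivAt (fun t : ℝ => G (circleMap 0 1 t))
        (circleMap 0 1 t ^ (k - 1) * h (circleMap 0 1 t) * (circleMap 0 1 t * I)) t :=
      HasDerivAt.comp_of_eq (h₂ := G) (h := circleMap 0 1) t h1 h2 rfl
    refine h3.congr_deriv ?_
    rw [hA _ (hcirc t)]
    have h4 : circleMap 0 1 t ^ k = circleMap 0 1 t ^ (k - 1) * circleMap 0 1 t := by
      rw [← pow_succ]
      congr 1
      omega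
    rw [h4]
    ring
  have hXc : Continuous (fun t : ℝ => Xi (circleMap 0 1 t)) :=
    hX.continuousOn.comp_continuous (continuous_circleMap 0 1)
      (fun t => by rw [mem_closedBall, dist_zero_right]; exact (hcirc t).le)
  have hXdc : Continuous (fun t : ℝ => deriv Xi (circleMap 0 1 t)) :=
    hX.deriv.continuousOn.comp_continuous (continuous_circleMap 0 1)
      (fun t => by rw [mem_closedBall, dist_zero_right]; exact (hcirc t).le)
  have hGc : Continuous (fun t : ℝ => G (circleMap 0 1 t)) :=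
    hG1.continuousOn.comp_continuous (continuous_circleMap 0 1)
      (fun t => by rw [mem_closedBall, dist_zero_right]; exact (hcirc t).le)
  have hhc : Continuous (fun t : ℝ => h (circleMap 0 1 t)) :=
    hh.continuousOn.comp_continuous (continuous_circleMap 0 1)
      (fun t => by rw [mem_closedBall, dist_zero_right]; exact (hcirc t).le)
  have hAc : Continuous (fun t : ℝ => A (circleMap 0 1 t)) := by
    have h1 : (fun t : ℝ => A (circleMap 0 1 t)) =
        fun t : ℝ => circleMap 0 1 t ^ k * h (circleMap 0 1 t) := by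
      funext t
      exact hA _ (hcirc t)
    rw [h1]
    exact ((continuous_circleMap 0 1).pow k).mul hhc
  have hint := intervalIntegral.integral_eq_sub_of_hasDerivAt (a := 0) (b := 2 * π)
    (f := fun t : ℝ => (starRingEnd ℂ) (Xi (circleMap 0 1 t)) * G (circleMap 0 1 t))
    (fun t _ => (hX' t).mul (hG' t)) (by
      refine Continuous.intervalIntegrable ?_ _ _
      exact ((Complex.continuous_conj.comp (hXdc.mul
        ((continuous_circleMap 0 1).mul continuous_const))).mul hGc).add
        ((Complex.continuous_conj.comp hXc).mul (hAc.mul continuous_const)))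
  have hper : circleMap 0 1 (2 * π) = circleMap 0 1 0 := by
    have := periodic_circleMap 0 1 0
    rwa [zero_add] at this
  rw [hper, sub_self, intervalIntegral.integral_add] at hint
  rotate_left
  · exact ((Complex.continuous_conj.comp (hXdc.mul
      ((continuous_circleMap 0 1).mul continuous_const))).mul hGc).intervalIntegrable _ _
  · exact ((Complex.continuous_conj.comp hXc).mul (hAc.mul continuous_const)).intervalIntegrable _ _
  have h5 : (∫ t in (0 : ℝ)..(2 * π), (starRingEnd ℂ) (Xi (circleMap 0 1 t)) *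
      (A (circleMap 0 1 t) * I)) =
      (∫ t in (0 : ℝ)..(2 * π), (starRingEnd ℂ) (Xi (circleMap 0 1 t)) * A (circleMap 0 1 t)) * I := by
    rw [← intervalIntegral.integral_mul_const]
    congr 1
    funext t
    ring
  have h6 : ‖∫ t in (0 : ℝ)..(2 * π), (starRingEnd ℂ) (deriv Xi (circleMap 0 1 t) *
      (circleMap 0 1 t * I)) * G (circleMap 0 1 t)‖ ≤ M₁ * (M₂ / k) * |2 * π - 0| := by
    refine intervalIntegral.norm_integral_le_of_norm_le_const (fun t _ => ?_)
    rw [norm_mul, Complex.norm_conj, norm_mul, norm_mul, hcirc t, Complex.norm_I, mul_one, mul_one]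
    exact mul_le_mul (hM1 _ (hcirc t)) (hGb _ (hcirc t)) (norm_nonneg _)
      ((norm_nonneg _).trans (hM1 _ (hcirc t)))
  have h7 : (∫ t in (0 : ℝ)..(2 * π), (starRingEnd ℂ) (Xi (circleMap 0 1 t)) *
      A (circleMap 0 1 t)) * I = -∫ t in (0 : ℝ)..(2 * π),
        (starRingEnd ℂ) (deriv Xi (circleMap 0 1 t) * (circleMap 0 1 t * I)) *
          G (circleMap 0 1 t) := by
    rw [← h5]
    linear_combination hint
  have h8 : ‖∫ t in (0 : ℝ)..(2 * π), (starRingEnd ℂ) (Xi (circleMap 0 1 t)) *
      A (circleMap 0 1 t)‖ ≤ M₁ * (M₂ / k) * |2 * π - 0| := by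
    have h9 := congrArg norm h7
    rw [norm_mul, Complex.norm_I, mul_one, norm_neg] at h9
    rw [h9]
    exact h6
  have hpi := Real.pi_pos
  rw [circleAverage_def, norm_smul, norm_inv, Real.norm_of_nonneg (by positivity),
    inv_mul_le_iff₀ (by positivity)]
  rw [sub_zero, abs_of_pos (by positivity)] at h8
  refine h8.trans (le_of_eq ?_)
  ring

/-- `E (Re (Ξ + A))² ≤ E (Re Ξ)² + E (Re A)² + sup |Ξ'| sup |A| / k` -/
theorem mean_sq_add_parts {Xi A h : ℂ → ℂ} {M₁ M₂ : ℝ} {k : ℕ} (hk : 1 ≤ k)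
    (hX : AnalyticOnNhd ℂ Xi (closedBall 0 1)) (hh : AnalyticOnNhd ℂ h (closedBall 0 1))
    (hA : ∀ z : ℂ, ‖z‖ = 1 → A z = z ^ k * h z)
    (hM1 : ∀ z : ℂ, ‖z‖ = 1 → ‖deriv Xi z‖ ≤ M₁) (hM2 : ∀ z : ℂ, ‖z‖ = 1 → ‖A z‖ ≤ M₂) :
    circleAverage (fun z => (Xi z + A z).re ^ 2) 0 1 ≤
      circleAverage (fun z => (Xi z).re ^ 2) 0 1 + circleAverage (fun z => (A z).re ^ 2) 0 1 +
        M₁ * M₂ / k := by
  have hcl1 : closure (ball (0 : ℂ) 1) = closedBall 0 1 := closure_ball 0 one_ne_zero
  have hpc : ContinuousOn Xi (sphere (0 : ℂ) 1) := hX.continuousOn.mono sphere_subset_closedBall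
  have hhc : ContinuousOn h (sphere (0 : ℂ) 1) := hh.continuousOn.mono sphere_subset_closedBall
  have hDc : ContinuousOn A (sphere (0 : ℂ) 1) := by
    have h1 : ContinuousOn (fun z : ℂ => z ^ k * h z) (sphere (0 : ℂ) 1) :=
      ContinuousOn.mul (by fun_prop) hhc
    exact h1.congr (fun z hz => hA z (by simpa using hz))
  -- `E[Ξ A] = 0`
  have h2 : circleAverage (fun z => Xi z * A z) 0 1 = 0 := by
    have han : AnalyticOnNhd ℂ (fun z => Xi z * (z ^ k * h z)) (closedBall 0 1) := by
      intro z hz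
      exact (hX z hz).mul ((analyticAt_id.pow k).mul (hh z hz))
    have h3 : DiffContOnCl ℂ (fun z => Xi z * (z ^ k * h z)) (ball 0 |1|) := by
      rw [abs_one]
      refine ⟨fun z hz => (han z (ball_subset_closedBall hz)).differentiableAt.differentiableWithinAt,
        ?_⟩
      rw [hcl1]
      exact han.continuousOn
    have h6 : circleAverage (fun z => Xi z * A z) 0 1 =
        circleAverage (fun z => Xi z * (z ^ k * h z)) 0 1 := by
      refine circleAverage_congr_sphere (fun z hz => ?_)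
      have : ‖z‖ = 1 := by simpa using hz
      simp only [hA z this]
    rw [h6, h3.circleAverage]
    have : k ≠ 0 := by omega
    simp [this]
  have h3 := cross_parts hk hX hh hA hM1 hM2
  have hi1 : CircleIntegrable (fun z => Xi z * A z) 0 1 := (hpc.mul hDc).circleIntegrable zero_le_one
  have hcc : ContinuousOn (fun z => (starRingEnd ℂ) (Xi z) * A z) (sphere (0 : ℂ) 1) :=
    (Complex.continuous_conj.comp_continuousOn hpc).mul hDc
  have hi2 : CircleIntegrable (fun z => (starRingEnd ℂ) (Xi z) * A z) 0 1 :=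
    hcc.circleIntegrable zero_le_one
  have h4 : circleAverage (fun z => (Xi z * A z).re) 0 1 = 0 := by
    have h5 := Complex.reCLM.circleAverage_comp_comm hi1
    rw [h2] at h5
    simpa [Function.comp_def] using h5
  have h5 : circleAverage (fun z => ((starRingEnd ℂ) (Xi z) * A z).re) 0 1 ≤ M₁ * M₂ / k := by
    have h6 := Complex.reCLM.circleAverage_comp_comm hi2
    have h7 : circleAverage (fun z => ((starRingEnd ℂ) (Xi z) * A z).re) 0 1 =
        (circleAverage (fun z => (starRingEnd ℂ) (Xi z) * A z) 0 1).re := by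
      simpa [Function.comp_def] using h6
    rw [h7]
    exact (Complex.re_le_norm _).trans h3
  have hr1 : CircleIntegrable (fun z => (Xi z).re ^ 2) 0 1 :=
    ((Complex.continuous_re.comp_continuousOn hpc).pow 2).circleIntegrable zero_le_one
  have hr2 : CircleIntegrable (fun z => (A z).re ^ 2) 0 1 :=
    ((Complex.continuous_re.comp_continuousOn hDc).pow 2).circleIntegrable zero_le_one
  have hr3 : CircleIntegrable (fun z => (Xi z * A z).re) 0 1 :=
    (Complex.continuous_re.comp_continuousOn (hpc.mul hDc)).circleIntegrable zero_le_one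
  have hr4 : CircleIntegrable (fun z => ((starRingEnd ℂ) (Xi z) * A z).re) 0 1 :=
    (Complex.continuous_re.comp_continuousOn hcc).circleIntegrable zero_le_one
  have h8 : circleAverage (fun z => (Xi z + A z).re ^ 2) 0 1 =
      circleAverage (fun z => ((Xi z).re ^ 2 + (A z).re ^ 2) +
        ((Xi z * A z).re + ((starRingEnd ℂ) (Xi z) * A z).re)) 0 1 := by
    refine circleAverage_congr_sphere (fun z _ => ?_)
    simp only [add_re, mul_re, conj_re, conj_im]
    ring
  have hs1 : CircleIntegrable (fun z => (Xi z).re ^ 2 + (A z).re ^ 2) 0 1 := hr1.add hr2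
  have hs2 : CircleIntegrable (fun z => (Xi z * A z).re + ((starRingEnd ℂ) (Xi z) * A z).re) 0 1 :=
    hr3.add hr4
  rw [h8, circleAverage_fun_add hs1 hs2, circleAverage_fun_add hr1 hr2,
    circleAverage_fun_add hr3 hr4, h4]
  linarith

/-- `E |A|² ≤ 2 E (Re A)² + |A 0|²` -/
theorem mean_norm_sq_le {A : ℂ → ℂ} (hA : DiffContOnCl ℂ A (ball 0 1)) :
    circleAverage (fun z => ‖A z‖ ^ 2) 0 1 ≤
      2 * circleAverage (fun z => (A z).re ^ 2) 0 1 + ‖A 0‖ ^ 2 := by
  have hcl : closure (ball (0 : ℂ) 1) = closedBall 0 1 := closure_ball 0 one_ne_zero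
  have hc : ContinuousOn A (sphere (0 : ℂ) 1) :=
    hA.continuousOn.mono (by rw [hcl]; exact sphere_subset_closedBall)
  have h1 : DiffContOnCl ℂ (fun z => A z ^ 2) (ball 0 |1|) := by
    rw [abs_one]
    have := hA.smul hA
    simpa [sq] using this
  have h2 : circleAverage (fun z => A z ^ 2) 0 1 = A 0 ^ 2 := h1.circleAverage
  have hi : CircleIntegrable (fun z => A z ^ 2) 0 1 := (hc.pow 2).circleIntegrable zero_le_one
  have h3 : circleAverage (fun z => (A z ^ 2).re) 0 1 = (A 0 ^ 2).re := by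
    have h4 := Complex.reCLM.circleAverage_comp_comm hi
    rw [h2] at h4
    simpa [Function.comp_def] using h4
  have hin : CircleIntegrable (fun z => ‖A z‖ ^ 2) 0 1 := (hc.norm.pow 2).circleIntegrable zero_le_one
  have hir2 : CircleIntegrable (fun z => (A z ^ 2).re) 0 1 :=
    (Complex.continuous_re.comp_continuousOn (hc.pow 2)).circleIntegrable zero_le_one
  have h5 : circleAverage (fun z => ‖A z‖ ^ 2 + (A z ^ 2).re) 0 1 =
      circleAverage (fun z => ‖A z‖ ^ 2) 0 1 + (A 0 ^ 2).re := by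
    rw [circleAverage_fun_add hin hir2, h3]
  have h6 : circleAverage (fun z => ‖A z‖ ^ 2 + (A z ^ 2).re) 0 1 =
      2 * circleAverage (fun z => (A z).re ^ 2) 0 1 := by
    rw [← smul_eq_mul, ← circleAverage_fun_smul]
    refine circleAverage_congr_sphere (fun z _ => ?_)
    simp only [smul_eq_mul]
    rw [← normSq_eq_norm_sq, normSq_apply, sq (A z), mul_re]
    ring
  have h7 : -(A 0 ^ 2).re ≤ ‖A 0‖ ^ 2 := by
    have h8 := Complex.abs_re_le_norm (A 0 ^ 2)
    rw [norm_pow] at h8
    exact (neg_le_abs _).trans h8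
  linarith

end Pool.Agent.Helper16.T78
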