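import Mathlib

/-!
# MP_78803a tools, T7, T8: Moebius maps, hyperbolic Lipschitz functions, Schwarz-Pick for two points
-/

set_option autoImplicit false

open Filter Topology Metric Complex

namespace Pool.Agent.Helper16.T78

/-- the Moebius map with `mob b 0 = b` -/
noncomputable def mob (b w : ℂ) : ℂ := (w + b) / (1 + (starRingEnd ℂ) b * w)

theorem norm_one_sub_conj_sq (w v : ℂ) :
    ‖1 - (starRingEnd ℂ) w * v‖ ^ 2 = ‖w - v‖ ^ 2 + (1 - ‖w‖ ^ 2) * (1 - ‖v‖ ^ 2) := by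
  simp only [← Complex.normSq_eq_norm_sq, Complex.normSq_apply]
  simp
  ring

theorem one_sub_ne {b w : ℂ} (hb : ‖b‖ < 1) (hw : ‖w‖ < 1) : 1 - (starRingEnd ℂ) b * w ≠ 0 := by
  intro h
  have h1 : (starRingEnd ℂ) b * w = 1 := by linear_combination -h
  have h2 : ‖b‖ * ‖w‖ = 1 := by
    rw [← Complex.norm_conj b, ← norm_mul, h1, norm_one]
  have := norm_nonneg b
  have := norm_nonneg w
  nlinarith

theorem one_add_ne {b w : ℂ} (hb : ‖b‖ < 1) (hw : ‖w‖ < 1) : 1 + (starRingEnd ℂ) b * w ≠ 0 := by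
  have h := one_sub_ne (b := b) (w := -w) hb (by rwa [norm_neg])
  intro h1
  refine h ?_
  linear_combination h1

theorem one_sub_sq_pos {b : ℂ} (hb : ‖b‖ < 1) : 0 < 1 - ‖b‖ ^ 2 := by
  have := norm_nonneg b
  nlinarith

theorem one_sub_mob {b w : ℂ} (hb : ‖b‖ < 1) (hw : ‖w‖ < 1) :
    1 - ‖mob b w‖ ^ 2 = (1 - ‖b‖ ^ 2) * (1 - ‖w‖ ^ 2) / ‖1 + (starRingEnd ℂ) b * w‖ ^ 2 := by
  have h1 := norm_ne_zero_iff.2 (one_add_ne hb hw)
  have h2 : ‖1 + (starRingEnd ℂ) b * w‖ ^ 2 = ‖w + b‖ ^ 2 + (1 - ‖b‖ ^ 2) * (1 - ‖w‖ ^ 2) := by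
    have h3 := norm_one_sub_conj_sq b (-w)
    rw [norm_neg, mul_neg, sub_neg_eq_add, sub_neg_eq_add, add_comm b w] at h3
    exact h3
  unfold mob
  rw [norm_div, div_pow, eq_div_iff (pow_ne_zero 2 h1), sub_mul, one_mul,
    div_mul_cancel₀ _ (pow_ne_zero 2 h1), h2]
  ring

theorem norm_mob_lt {b w : ℂ} (hb : ‖b‖ < 1) (hw : ‖w‖ < 1) : ‖mob b w‖ < 1 := by
  have h1 := one_sub_mob hb hw
  have h2 : 0 < 1 - ‖mob b w‖ ^ 2 := by
    rw [h1]
    have h3 := one_sub_sq_pos hb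
    have h4 := one_sub_sq_pos hw
    have h5 := norm_pos_iff.2 (one_add_ne hb hw)
    positivity
  by_contra h
  push_neg at h
  nlinarith

theorem mob_zero (b : ℂ) : mob b 0 = b := by
  unfold mob
  simp

theorem hasDerivAt_mob {b w : ℂ} (hb : ‖b‖ < 1) (hw : ‖w‖ < 1) :
    HasDerivAt (mob b) (((1 - ‖b‖ ^ 2 : ℝ) : ℂ) / (1 + (starRingEnd ℂ) b * w) ^ 2) w := by
  have h1 := one_add_ne hb hw
  have h2 : HasDerivAt (fun w : ℂ => w + b) 1 w := (hasDerivAt_id w).add_const b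
  have h3 : HasDerivAt (fun w : ℂ => 1 + (starRingEnd ℂ) b * w) ((starRingEnd ℂ) b) w := by
    simpa using ((hasDerivAt_id w).const_mul ((starRingEnd ℂ) b)).const_add 1
  refine (h2.div h3 h1).congr_deriv ?_
  have h4 : ((‖b‖ ^ 2 : ℝ) : ℂ) = (starRingEnd ℂ) b * b := by
    push_cast
    rw [Complex.conj_mul']
  congr 1
  push_cast at h4 ⊢
  rw [h4]
  ring

theorem mob_sub {b v : ℂ} (hb : ‖b‖ < 1) (hv : ‖v‖ < 1) :
    mob b ((v - b) / (1 - (starRingEnd ℂ) b * v)) = v := by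
  have h1 := one_sub_ne hb hv
  have h2 : 1 - (starRingEnd ℂ) b * b ≠ 0 := one_sub_ne hb hb
  unfold mob
  have h3 : 1 + (starRingEnd ℂ) b * ((v - b) / (1 - (starRingEnd ℂ) b * v)) =
      (1 - (starRingEnd ℂ) b * b) / (1 - (starRingEnd ℂ) b * v) := by
    field_simp
    ring
  have h4 : (v - b) / (1 - (starRingEnd ℂ) b * v) + b =
      v * (1 - (starRingEnd ℂ) b * b) / (1 - (starRingEnd ℂ) b * v) := by
    rw [div_add' _ _ _ h1]
    congr 1
    ring
  rw [h3, h4, div_div_div_cancel_right₀ h1, mul_div_cancel_right₀ _ h2]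

/-- the inverse Moebius map has norm the pseudo-hyperbolic distance -/
theorem norm_sub_lt {b v : ℂ} (hb : ‖b‖ < 1) (hv : ‖v‖ < 1) :
    ‖(v - b) / (1 - (starRingEnd ℂ) b * v)‖ < 1 := by
  have h := norm_mob_lt (b := -b) (w := v) (by rwa [norm_neg]) hv
  unfold mob at h
  rw [map_neg, neg_mul] at h
  simpa [sub_eq_add_neg] using h

/-- the growth estimate behind T7, on a ray from the centre -/
theorem ray_lip {G : ℂ → ℂ} {C₀ c : ℝ} (hC : 0 ≤ C₀) (hc : 0 < c)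
    (hG : ∀ w : ℂ, ‖w‖ < 1 → DifferentiableAt ℂ G w)
    (h : ∀ w : ℂ, ‖w‖ < 1 → (1 - ‖w‖ ^ 2) * ‖deriv G w‖ ≤ C₀ * (c + ‖G w - G 0‖))
    {w : ℂ} (hw : ‖w‖ < 1) :
    ‖G w - G 0‖ ≤ c * (((1 + ‖w‖) / (1 - ‖w‖)) ^ (C₀ / 2) - 1) := by
  rcases eq_or_ne w 0 with h0 | h0
  · rw [h0]
    simp
  have hr0 : 0 < ‖w‖ := norm_pos_iff.2 h0
  set r := ‖w‖ with hr
  set e : ℂ := w / (r : ℂ) with he
  have hrc : (r : ℂ) ≠ 0 := by exact_mod_cast hr0.ne'
  have hne : ‖e‖ = 1 := by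
    rw [he, norm_div, Complex.norm_real, Real.norm_of_nonneg hr0.le, ← hr, div_self hr0.ne']
  have hwe : w = (r : ℂ) * e := by
    rw [he]
    field_simp
  have hnorm : ∀ s : ℝ, 0 ≤ s → ‖(s : ℂ) * e‖ = s := by
    intro s hs
    rw [norm_mul, hne, mul_one, Complex.norm_real, Real.norm_of_nonneg hs]
  have hd : ∀ s : ℝ, 0 ≤ s → s ≤ r →
      HasDerivAt (fun s : ℝ => G ((s : ℂ) * e) - G 0) (deriv G ((s : ℂ) * e) * e) s := by
    intro s hs0 hs1
    have h1 := (hG ((s : ℂ) * e) (by rw [hnorm s hs0]; linarith)).hasDerivAt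
    have h2 : HasDerivAt (fun s : ℝ => (s : ℂ) * e) e s := by
      have h3 : HasDerivAt (fun s : ℝ => (s : ℂ)) 1 s := Complex.ofRealCLM.hasDerivAt
      simpa using h3.mul_const e
    have h4 : HasDerivAt (fun s : ℝ => G ((s : ℂ) * e)) (deriv G ((s : ℂ) * e) * e) s :=
      HasDerivAt.comp_of_eq (h₂ := G) (h := fun s : ℝ => (s : ℂ) * e) s h1 h2 rfl
    exact h4.sub_const _
  have key : ∀ κ : ℝ, C₀ / 2 < κ → ‖G w - G 0‖ ≤
      c * (Real.exp (κ * (Real.log (1 + r) - Real.log (1 - r))) - 1) := by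
    intro κ hκ
    have hκ0 : 0 < κ := by linarith [div_nonneg hC (by norm_num : (0 : ℝ) ≤ 2)]
    have hB : ∀ s : ℝ, 0 ≤ s → s ≤ r →
        HasDerivAt (fun s : ℝ => c * (Real.exp (κ * (Real.log (1 + s) - Real.log (1 - s))) - 1))
          (c * (Real.exp (κ * (Real.log (1 + s) - Real.log (1 - s))) *
            (κ * (1 / (1 + s) - -1 / (1 - s))))) s := by
      intro s hs0 hs1
      have h1 : HasDerivAt (fun s : ℝ => Real.log (1 + s)) (1 / (1 + s)) s := by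
        have := ((hasDerivAt_id s).const_add 1).log (by simp; linarith)
        simpa using this
      have h2 : HasDerivAt (fun s : ℝ => Real.log (1 - s)) (-1 / (1 - s)) s := by
        have := ((hasDerivAt_id s).const_sub 1).log (by simp; linarith)
        simpa using this
      exact (((h1.sub h2).const_mul κ).exp.sub_const 1).const_mul c
    have h1 := image_norm_le_of_norm_deriv_right_lt_deriv_boundary' (a := 0) (b := r)
      (f := fun s : ℝ => G ((s : ℂ) * e) - G 0) (f' := fun s : ℝ => deriv G ((s : ℂ) * e) * e)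
      (fun s hs => (hd s hs.1 hs.2).continuousAt.continuousWithinAt)
      (fun s hs => (hd s hs.1 hs.2.le).hasDerivWithinAt)
      (B := fun s : ℝ => c * (Real.exp (κ * (Real.log (1 + s) - Real.log (1 - s))) - 1))
      (B' := fun s : ℝ => c * (Real.exp (κ * (Real.log (1 + s) - Real.log (1 - s))) *
            (κ * (1 / (1 + s) - -1 / (1 - s)))))
      (by simp) (fun s hs => (hB s hs.1 hs.2).continuousAt.continuousWithinAt)
      (fun s hs => (hB s hs.1 hs.2.le).hasDerivWithinAt)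
      (fun s hs hsB => by
        have hs1 : s < 1 := hs.2.trans hw
        have h2 := h ((s : ℂ) * e) (by rw [hnorm s hs.1]; exact hs1)
        rw [hnorm s hs.1, hsB] at h2
        have h3 : 0 < 1 - s ^ 2 := by nlinarith [hs.1]
        have h4 : 1 / (1 + s) - -1 / (1 - s) = 2 / (1 - s ^ 2) := by
          have h5 : 1 + s ≠ 0 := by linarith [hs.1]
          have h6 : 1 - s ≠ 0 := by linarith
          have h7 : 1 - s ^ 2 ≠ 0 := h3.ne'
          field_simp
          ring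
        rw [norm_mul, hne, mul_one, h4]
        have h8 : c * (Real.exp (κ * (Real.log (1 + s) - Real.log (1 - s))) * (κ * (2 / (1 - s ^ 2))))
            = 2 * κ * (c * Real.exp (κ * (Real.log (1 + s) - Real.log (1 - s)))) / (1 - s ^ 2) := by
          ring
        rw [h8, lt_div_iff₀ h3]
        have h9 : 0 < c * Real.exp (κ * (Real.log (1 + s) - Real.log (1 - s))) := by positivity
        calc ‖deriv G ((s : ℂ) * e)‖ * (1 - s ^ 2) ≤
              C₀ * (c * Real.exp (κ * (Real.log (1 + s) - Real.log (1 - s)))) := by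
              rw [mul_comm]
              refine h2.trans (le_of_eq ?_)
              ring
          _ < _ := mul_lt_mul_of_pos_right (by linarith) h9) (x := r) ⟨hr0.le, le_rfl⟩
    rw [← hwe] at h1
    exact h1
  have h8 : Tendsto (fun κ : ℝ => c * (Real.exp (κ * (Real.log (1 + r) - Real.log (1 - r))) - 1))
      (𝓝[>] (C₀ / 2)) (𝓝 (c * (Real.exp (C₀ / 2 * (Real.log (1 + r) - Real.log (1 - r))) - 1))) :=
    tendsto_nhdsWithin_of_tendsto_nhds (Continuous.tendsto (by fun_prop) _)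
  have h9 := ge_of_tendsto h8 (eventually_nhdsWithin_of_forall fun κ hκ => key κ hκ)
  refine h9.trans (le_of_eq ?_)
  rw [Real.rpow_def_of_pos (div_pos (by linarith) (by linarith)),
    Real.log_div (by linarith) (by linarith)]
  ring_nf

/-- T7: hyperbolic Lipschitz functions -/
theorem hyp_lip {F : ℂ → ℂ} {C₀ : ℝ} (hC : 0 ≤ C₀)
    (hF : ∀ w : ℂ, ‖w‖ < 1 → DifferentiableAt ℂ F w)
    (h : ∀ w : ℂ, ‖w‖ < 1 → (1 - ‖w‖ ^ 2) * ‖deriv F w‖ ≤ C₀ * (1 + |(F w).re|))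
    {b v : ℂ} (hb : ‖b‖ < 1) (hv : ‖v‖ < 1) {p : ℝ} (hp1 : p < 1)
    (hp : ‖b - v‖ ≤ p * ‖1 - (starRingEnd ℂ) b * v‖) :
    ‖F v - F b‖ ≤ (1 + |(F b).re|) * (((1 + p) / (1 - p)) ^ (C₀ / 2) - 1) := by
  set w : ℂ := (v - b) / (1 - (starRingEnd ℂ) b * v) with hw
  have hw1 : ‖w‖ < 1 := norm_sub_lt hb hv
  have hwp : ‖w‖ ≤ p := by
    rw [hw, norm_div, div_le_iff₀ (norm_pos_iff.2 (one_sub_ne hb hv)), norm_sub_rev]
    exact hp
  have hmv : mob b w = v := mob_sub hb hv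
  have hG : ∀ u : ℂ, ‖u‖ < 1 → HasDerivAt (fun u => F (mob b u))
      (deriv F (mob b u) * (((1 - ‖b‖ ^ 2 : ℝ) : ℂ) / (1 + (starRingEnd ℂ) b * u) ^ 2)) u := by
    intro u hu
    exact (hF _ (norm_mob_lt hb hu)).hasDerivAt.comp u (hasDerivAt_mob hb hu)
  have h1 := ray_lip (G := fun u => F (mob b u)) (c := 1 + |(F b).re|) hC (by positivity)
    (fun u hu => (hG u hu).differentiableAt) (fun u hu => by
      rw [(hG u hu).deriv, norm_mul, norm_div, Complex.norm_real, norm_pow,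
        Real.norm_of_nonneg (one_sub_sq_pos hb).le]
      have h2 := h _ (norm_mob_lt hb hu)
      rw [one_sub_mob hb hu] at h2
      have h3 : |(F (mob b u)).re| ≤ |(F b).re| + ‖F (mob b u) - F b‖ := by
        have h4 : (F (mob b u)).re = (F b).re + (F (mob b u) - F b).re := by
          rw [sub_re]
          ring
        rw [h4]
        refine (abs_add_le _ _).trans ?_
        exact add_le_add_right (Complex.abs_re_le_norm _) _
      rw [mob_zero]
      calc (1 - ‖u‖ ^ 2) * (‖deriv F (mob b u)‖ * ((1 - ‖b‖ ^ 2) / ‖1 + (starRingEnd ℂ) b * u‖ ^ 2))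
          = (1 - ‖b‖ ^ 2) * (1 - ‖u‖ ^ 2) / ‖1 + (starRingEnd ℂ) b * u‖ ^ 2 *
              ‖deriv F (mob b u)‖ := by ring
        _ ≤ C₀ * (1 + |(F (mob b u)).re|) := h2
        _ ≤ _ := mul_le_mul_of_nonneg_left (by linarith) hC) hw1
  simp only [hmv, mob_zero] at h1
  refine h1.trans (mul_le_mul_of_nonneg_left (sub_le_sub_right ?_ 1) (by positivity))
  refine Real.rpow_le_rpow (div_nonneg (by positivity) (by linarith)) ?_ (by positivity)
  rw [div_le_div_iff₀ (by linarith) (by linarith)]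
  nlinarith [norm_nonneg w]

/-- two-point Schwarz-Pick lemma on the disc of radius `R` -/
theorem schwarz_pick {B : ℂ → ℂ} {R : ℝ} (hR : 0 < R) (hB : DifferentiableOn ℂ B (ball 0 R))
    (hB1 : ∀ z : ℂ, ‖z‖ < R → ‖B z‖ < 1) {z v : ℂ} (hz : ‖z‖ < R) (hv : ‖v‖ < R) :
    ‖B z - B v‖ * ‖((R ^ 2 : ℝ) : ℂ) - (starRingEnd ℂ) z * v‖ ≤
      R * ‖z - v‖ * ‖1 - (starRingEnd ℂ) (B z) * B v‖ := by
  have hRc : (R : ℂ) ≠ 0 := by exact_mod_cast hR.ne'
  set a : ℂ := z / R with ha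
  set a' : ℂ := v / R with ha'
  have hna : ‖a‖ < 1 := by
    rw [ha, norm_div, Complex.norm_real, Real.norm_of_nonneg hR.le, div_lt_one hR]
    exact hz
  have hna' : ‖a'‖ < 1 := by
    rw [ha', norm_div, Complex.norm_real, Real.norm_of_nonneg hR.le, div_lt_one hR]
    exact hv
  have hza : (R : ℂ) * a = z := by
    rw [ha]
    field_simp
  have hva : (R : ℂ) * a' = v := by
    rw [ha']
    field_simp
  set w : ℂ := (a' - a) / (1 - (starRingEnd ℂ) a * a') with hw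
  have hw1 : ‖w‖ < 1 := norm_sub_lt hna hna'
  have hmw : mob a w = a' := mob_sub hna hna'
  have hin : ∀ u : ℂ, ‖u‖ < 1 → ‖(R : ℂ) * mob a u‖ < R := by
    intro u hu
    rw [norm_mul, Complex.norm_real, Real.norm_of_nonneg hR.le]
    calc R * ‖mob a u‖ < R * 1 := mul_lt_mul_of_pos_left (norm_mob_lt hna hu) hR
      _ = R := mul_one R
  set f : ℂ → ℂ := fun u => B ((R : ℂ) * mob a u) with hf
  have hf1 : ∀ u : ℂ, ‖u‖ < 1 → ‖f u‖ < 1 := fun u hu => hB1 _ (hin u hu)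
  have hfd : ∀ u : ℂ, ‖u‖ < 1 → DifferentiableAt ℂ f u := by
    intro u hu
    have h1 : DifferentiableAt ℂ B ((R : ℂ) * mob a u) :=
      hB.differentiableAt (isOpen_ball.mem_nhds (by simpa using hin u hu))
    have h2 : DifferentiableAt ℂ (fun u => (R : ℂ) * mob a u) u :=
      (hasDerivAt_mob hna hu).differentiableAt.const_mul _
    exact h1.comp u h2
  have hf0 : f 0 = B z := by
    simp only [hf]
    rw [mob_zero, hza]
  have hfw : f w = B v := by
    simp only [hf]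
    rw [hmw, hva]
  set g : ℂ → ℂ := fun u => (f u - f 0) / (1 - (starRingEnd ℂ) (f 0) * f u) with hg
  have h00 : ‖f 0‖ < 1 := hf1 0 (by simp)
  have hgd : DifferentiableOn ℂ g (ball 0 1) := by
    intro u hu
    have hu1 : ‖u‖ < 1 := by simpa using hu
    exact ((hfd u hu1).sub_const _ |>.div (((hfd u hu1).const_mul _).const_sub _)
      (one_sub_ne h00 (hf1 u hu1))).differentiableWithinAt
  have hgm : Set.MapsTo g (ball 0 1) (closedBall 0 1) := by
    intro u hu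
    have hu1 : ‖u‖ < 1 := by simpa using hu
    rw [mem_closedBall, dist_zero_right]
    exact (norm_sub_lt h00 (hf1 u hu1)).le
  have hg0 : g 0 = 0 := by
    simp [hg]
  have h3 := norm_le_norm_of_mapsTo_ball hgd hgm hg0 hw1
  simp only [hg] at h3
  rw [hf0, hfw, norm_div, hw, norm_div] at h3
  have hz1 : ‖B z‖ < 1 := hB1 z hz
  have hv1 : ‖B v‖ < 1 := hB1 v hv
  have p1 : 0 < ‖1 - (starRingEnd ℂ) (B z) * B v‖ := norm_pos_iff.2 (one_sub_ne hz1 hv1)
  have p2 : 0 < ‖1 - (starRingEnd ℂ) a * a'‖ := norm_pos_iff.2 (one_sub_ne hna hna')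
  rw [div_le_div_iff₀ p1 p2] at h3
  have e1 : ((R ^ 2 : ℝ) : ℂ) - (starRingEnd ℂ) z * v =
      ((R ^ 2 : ℝ) : ℂ) * (1 - (starRingEnd ℂ) a * a') := by
    rw [← hza, ← hva, map_mul, Complex.conj_ofReal]
    push_cast
    ring
  have e2 : z - v = -((R : ℂ) * (a' - a)) := by
    rw [← hza, ← hva]
    ring
  rw [e1, e2, norm_neg, norm_mul, norm_mul, Complex.norm_real, Complex.norm_real,
    Real.norm_of_nonneg (by positivity), Real.norm_of_nonneg hR.le, norm_sub_rev]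
  calc ‖B v - B z‖ * (R ^ 2 * ‖1 - (starRingEnd ℂ) a * a'‖) =
        R ^ 2 * (‖B v - B z‖ * ‖1 - (starRingEnd ℂ) a * a'‖) := by ring
    _ ≤ R ^ 2 * (‖a' - a‖ * ‖1 - (starRingEnd ℂ) (B z) * B v‖) :=
        mul_le_mul_of_nonneg_left h3 (by positivity)
    _ = _ := by ring

/-- T8: Schwarz-Pick on `|z| < exp h` for two points with `|z|, |v| ≤ exp (h / 2)` -/
theorem schwarz_pick_exp {B : ℂ → ℂ} {h : ℝ} (hh : 0 < h)
    (hB : DifferentiableOn ℂ B (ball 0 (Real.exp h)))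
    (hB1 : ∀ z : ℂ, ‖z‖ < Real.exp h → ‖B z‖ < 1) {z v : ℂ} (hz : ‖z‖ ≤ Real.exp (h / 2))
    (hv : ‖v‖ ≤ Real.exp (h / 2)) :
    ‖B z - B v‖ ≤ ‖z - v‖ / h * ‖1 - (starRingEnd ℂ) (B z) * B v‖ := by
  have hlt : Real.exp (h / 2) < Real.exp h := Real.exp_lt_exp.2 (by linarith)
  have h1 := schwarz_pick (Real.exp_pos h) hB hB1 (hz.trans_lt hlt) (hv.trans_lt hlt)
  have h2 : Real.exp h * h ≤ ‖((Real.exp h ^ 2 : ℝ) : ℂ) - (starRingEnd ℂ) z * v‖ := by
    have h3 : ‖(starRingEnd ℂ) z * v‖ ≤ Real.exp h := by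
      rw [norm_mul, Complex.norm_conj]
      calc ‖z‖ * ‖v‖ ≤ Real.exp (h / 2) * Real.exp (h / 2) :=
            mul_le_mul hz hv (norm_nonneg _) (Real.exp_pos _).le
        _ = Real.exp h := by rw [← Real.exp_add]; congr 1; ring
    have h4 : ‖((Real.exp h ^ 2 : ℝ) : ℂ)‖ = Real.exp h ^ 2 := by
      rw [Complex.norm_real, Real.norm_of_nonneg (by positivity)]
    have h5 := norm_sub_norm_le ((Real.exp h ^ 2 : ℝ) : ℂ) ((starRingEnd ℂ) z * v)
    rw [h4] at h5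
    have h6 : h + 1 ≤ Real.exp h := Real.add_one_le_exp h
    nlinarith [Real.exp_pos h]
  have h7 : ‖B z - B v‖ * (Real.exp h * h) ≤
      Real.exp h * ‖z - v‖ * ‖1 - (starRingEnd ℂ) (B z) * B v‖ :=
    (mul_le_mul_of_nonneg_left h2 (norm_nonneg _)).trans h1
  have h8 : ‖B z - B v‖ * h ≤ ‖z - v‖ * ‖1 - (starRingEnd ℂ) (B z) * B v‖ := by
    have h9 := Real.exp_pos h
    have h10 : Real.exp h * (‖B z - B v‖ * h) ≤
        Real.exp h * (‖z - v‖ * ‖1 - (starRingEnd ℂ) (B z) * B v‖) := by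
      calc _ = ‖B z - B v‖ * (Real.exp h * h) := by ring
        _ ≤ _ := h7
        _ = _ := by ring
    exact le_of_mul_le_mul_left h10 h9
  rw [div_mul_eq_mul_div, le_div_iff₀ hh]
  exact h8

end Pool.Agent.Helper16.T78
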